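import Pool.Agent.TST.HWDefs

/-!
TST CardLow: the number of full plane words is at least xc^(-n): submultiplicative (cut after m letters), and the
series at xc diverges, because it contains all bridges (bT_lower).
-/

set_option autoImplicit false

namespace HexObs

open Complex Finset ENNReal

/-- rotation and translation invariance of the full plane words. -/
private lemma cardlow_inj {d : Pt} (hd : d ∈ dirs) (v : Pt) (t : List Bool) :
    Inj v d t ↔ Inj oo up t := by
  have hup : up ∈ dirs := by decide
  have hu := nrm_rotTo hup hd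
  have ha := rotTo_apply d hup
  obtain ⟨u, hu'⟩ : ∃ u, u = rotTo up d := ⟨_, rfl⟩
  rw [← hu'] at hu ha
  have key : ∀ i, vx v d t i = v + mulE u (vx oo up t i - oo) := by
    intro i
    rw [← vx_mulE u oo v up t i, ha]
  constructor
  · intro h i k hik hk heq
    apply h i k hik hk
    rw [key, key, heq]
  · intro h i k hik hk heq
    apply h i k hik hk
    rw [key, key] at heq
    have h1 := add_left_cancel heq
    have h2 := mulE_inj hu h1
    exact sub_left_injective h2

private lemma cardlow_finite (n : ℕ) : {t : List Bool | t.length = n ∧ Inj oo up t}.Finite :=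
  (List.finite_length_le Bool n).subset (fun _ ht => ht.1.le)

private lemma cardlow_take {t : List Bool} {v d : Pt} (h : Inj v d t) (m : ℕ) : Inj v d (t.take m) := by
  intro i k hik hk
  rw [List.length_take] at hk
  have e : t = t.take m ++ t.drop m := (List.take_append_drop m t).symm
  have h1 := h i k hik (by omega)
  rw [e, vx_append (by rw [List.length_take]; omega), vx_append (by rw [List.length_take]; omega)] at h1
  exact h1

private lemma cardlow_drop {t : List Bool} {v d : Pt} (h : Inj v d t) {m : ℕ} (hm : m ≤ t.length) :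
    Inj (vx v d t m) (dx d t m) (t.drop m) := by
  have key : ∀ i, vx (vx v d t m) (dx d t m) (t.drop m) i = vx v d t (m + i) := by
    intro i
    have h1 := vs_shift v d (tf t) m i
    have h2 : (fun k => tf t (m + k)) = tf (t.drop m) := by
      funext k
      unfold tf
      simp only [List.getD_eq_getElem?_getD, List.getElem?_drop]
    rw [h2] at h1
    exact h1.symm
  intro i k hik hk
  rw [List.length_drop] at hk
  rw [key, key]
  exact h (m + i) (m + k) (by omega) (by omega)

theorem NW_mul (m n : ℕ) : NW (m + n) ≤ NW m * NW n := by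
  unfold NW
  rw [← Set.ncard_prod]
  refine Set.ncard_le_ncard_of_injOn (fun t => (t.take m, t.drop m)) ?_ ?_
    ((cardlow_finite m).prod (cardlow_finite n))
  · rintro t ⟨h1, h2⟩
    refine ⟨⟨?_, cardlow_take h2 m⟩, ?_, ?_⟩
    · show (t.take m).length = m
      rw [List.length_take]
      omega
    · show (t.drop m).length = n
      rw [List.length_drop]
      omega
    · have h3 := cardlow_drop h2 (m := m) (by omega)
      exact (cardlow_inj (dx_mem (by decide) t m) _ _).1 h3
  · intro s _ t _ hst
    have h1 : s.take m = t.take m := congrArg Prod.fst hst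
    have h2 : s.drop m = t.drop m := congrArg Prod.snd hst
    rw [← List.take_append_drop m s, ← List.take_append_drop m t, h1, h2]

/-- full plane words of any first direction. -/
theorem NW_eq {d : Pt} (hd : d ∈ dirs) (v : Pt) (n : ℕ) :
    Set.ncard {t : List Bool | t.length = n ∧ Inj v d t} = NW n := by
  unfold NW
  congr 1
  ext t
  constructor
  · rintro ⟨h1, h2⟩
    exact ⟨h1, (cardlow_inj hd v t).1 h2⟩
  · rintro ⟨h1, h2⟩
    exact ⟨h1, (cardlow_inj hd v t).2 h2⟩

/-- sums of a submultiplicative sequence with a term less than one. -/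
private lemma cardlow_sum {a : ℕ → ℝ} (h0 : ∀ k, 0 ≤ a k) (hm : ∀ m n, a (m + n) ≤ a m * a n) {n : ℕ}
    (hn : a n < 1) : ∃ C : ℝ, ∀ N, ∑ k ∈ Finset.range N, a k ≤ C := by
  refine ⟨(∑ k ∈ Finset.range n, a k) / (1 - a n), fun N => ?_⟩
  have h1 : 0 < 1 - a n := by linarith
  rw [le_div_iff₀ h1]
  have h2 : ∑ k ∈ Finset.range N, a k ≤ ∑ k ∈ Finset.range (n + N), a k := by
    apply Finset.sum_le_sum_of_subset_of_nonneg
    · intro k hk
      rw [Finset.mem_range] at hk ⊢
      omega
    · intro k _ _
      exact h0 k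
  have h3 : ∑ k ∈ Finset.range (n + N), a k ≤ (∑ k ∈ Finset.range n, a k) +
      a n * ∑ k ∈ Finset.range N, a k := by
    rw [Finset.sum_range_add, Finset.mul_sum]
    gcongr with k hk
    exact hm n k
  linarith

private lemma cardlow_bridges : ∑' T : ℕ, BT (T + 1) ≤ gf {t : List Bool | Inj oo up t} := by
  have hup : up ∈ dirs := by decide
  have h := tsum_gX_le xc (P := {t : List Bool | Inj oo up t})
    (fun T : ℕ => out (strip oo up (T + 1)) oo up up) (by
      intro T t ht
      exact ht.1.inj) (by
      intro i j hij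
      rw [Set.disjoint_left]
      intro t h1 h2
      have hne : up ≠ -up := by decide
      have k1 : ip (tip oo up t - oo) up = 3 * ((i + 1 : ℕ) : ℤ) + 2 := by
        rcases strip_exit hup (by omega) h1.1 h1.2.1 with ⟨h, _⟩ | ⟨_, h⟩
        · exact absurd (h1.2.2.symm.trans h) hne
        · exact h
      have k2 : ip (tip oo up t - oo) up = 3 * ((j + 1 : ℕ) : ℤ) + 2 := by
        rcases strip_exit hup (by omega) h2.1 h2.2.1 with ⟨h, _⟩ | ⟨_, h⟩
        · exact absurd (h2.2.2.symm.trans h) hne
        · exact h
      rw [k1] at k2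
      push_cast at k2
      apply hij
      omega)
  exact h

private lemma cardlow_top : ∑' T : ℕ, BT (T + 1) = ∞ := by
  by_contra hne
  have h1 := ENNReal.summable_toReal hne
  have h2 : Summable fun T : ℕ => (1 : ℝ) / ((T : ℝ) + 4) := by
    refine Summable.of_nonneg_of_le (fun T => by positivity) (fun T => ?_) h1
    have h3 := bT_lower (T := T + 1) (by omega)
    have e : (((T + 1 : ℕ) : ℝ) + 3) = (T : ℝ) + 4 := by push_cast; ring
    rw [e] at h3
    exact h3
  have h4 : Summable fun T : ℕ => (1 : ℝ) / (((T + 4 : ℕ)) : ℝ) := by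
    refine h2.congr fun T => ?_
    push_cast
    ring
  have h5 := (summable_nat_add_iff (f := fun n : ℕ => (1 : ℝ) / (n : ℝ)) 4).1 h4
  exact Real.not_summable_one_div_natCast h5

theorem NW_lower (n : ℕ) : 1 ≤ xc ^ n * (NW n : ℝ) := by
  by_contra hcon
  push Not at hcon
  have hx := xc_pos
  obtain ⟨C, hC⟩ := cardlow_sum (a := fun k => xc ^ k * (NW k : ℝ)) (fun k => by positivity) (by
    intro m n
    have h1 : (NW (m + n) : ℝ) ≤ (NW m : ℝ) * NW n := by exact_mod_cast NW_mul m n
    calc xc ^ (m + n) * (NW (m + n) : ℝ) ≤ xc ^ (m + n) * ((NW m : ℝ) * NW n) := by gcongr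
      _ = xc ^ m * (NW m : ℝ) * (xc ^ n * (NW n : ℝ)) := by rw [pow_add]; ring) hcon
  have h1 : gf {t : List Bool | Inj oo up t} ≤ ∑' k : ℕ, ENNReal.ofReal (xc ^ k * (NW k : ℝ)) := by
    have hsub : {t : List Bool | Inj oo up t} ⊆ ⋃ k : ℕ, {t : List Bool | t.length = k ∧ Inj oo up t} := by
      intro t ht
      exact Set.mem_iUnion.2 ⟨t.length, rfl, ht⟩
    refine (gX_mono xc hsub).trans ((gX_iUnion_le xc _).trans (ENNReal.tsum_le_tsum fun k => ?_))
    rw [gX_length k _ (fun t ht => ht.1), ENNReal.ofReal_mul (pow_nonneg hx.le _), ENNReal.ofReal_natCast]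
    exact le_rfl
  have h2 : ∑' k : ℕ, ENNReal.ofReal (xc ^ k * (NW k : ℝ)) ≤ ENNReal.ofReal C := by
    apply ENNReal.tsum_le_of_sum_range_le
    intro N
    rw [← ENNReal.ofReal_sum_of_nonneg (fun k _ => by positivity)]
    exact ENNReal.ofReal_le_ofReal (hC N)
  have h3 := (cardlow_bridges.trans h1).trans h2
  rw [cardlow_top, top_le_iff] at h3
  exact ENNReal.ofReal_ne_top h3

end HexObs
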