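import Pool.Agent.TST.HWDefs
import Pool.Agent.Saw39.MaxMoment

/-!
TST EncW: from the encoding of the honeycomb walks (steps (-1)^i exp(2 pi i a / 3)) to words.
The step number i is emb of a direction of class cl (1, 0) (i even) or the opposite class; first directions (1,0),
(-1,1), (0,-1). A walk of n >= 1 steps is a first direction and n - 1 turns; the last letter of a word is free.
pos f s j = emb (vx oo d t j) for j <= n. For every point p there is a direction e with |emb p| <= ip p e.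
-/

set_option autoImplicit false
open scoped Classical

namespace HexObs

open Complex Finset ENNReal

lemma encwa_norm_sq (p : Pt) : ‖emb p‖ ^ 2 = (nrm p : ℝ) := by
  have h3 : Real.sqrt 3 * Real.sqrt 3 = 3 := Real.mul_self_sqrt (by norm_num)
  rw [Complex.sq_norm, Complex.normSq_apply, emb_re, emb_im]
  unfold nrm
  push_cast
  linear_combination ((p.2 : ℝ) ^ 2 / 4) * h3

lemma encwa_emb_inj {p q : Pt} (h : emb p = emb q) : p = q := by
  have h3 : (0 : ℝ) < Real.sqrt 3 := Real.sqrt_pos.2 (by norm_num)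
  have h1 := congrArg Complex.im h
  have h2 := congrArg Complex.re h
  rw [emb_im, emb_im] at h1
  rw [emb_re, emb_re] at h2
  have h4 : (p.2 : ℝ) = q.2 := mul_right_cancel₀ (by positivity) h1
  have h5 : (p.1 : ℝ) = q.1 := by
    rw [h4] at h2
    linarith
  exact Prod.ext (by exact_mod_cast h5) (by exact_mod_cast h4)

theorem exists_ip (p : Pt) : ∃ e ∈ dirs, ‖emb p‖ ≤ (ip p e : ℝ) := by
  by_contra hcon
  push Not at hcon
  have h1 := hcon (1, 0) (by decide)
  have h2 := hcon (-1, 0) (by decide)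
  have h3 := hcon (0, 1) (by decide)
  have h4 := hcon (0, -1) (by decide)
  have h5 := hcon (-1, 1) (by decide)
  have h6 := hcon (1, -1) (by decide)
  have hn := encwa_norm_sq p
  have h0 := norm_nonneg (emb p)
  set r : ℝ := ‖emb p‖
  unfold ip at h1 h2 h3 h4 h5 h6
  unfold nrm at hn
  push_cast at h1 h2 h3 h4 h5 h6 hn
  set a : ℝ := (p.1 : ℝ)
  set b : ℝ := (p.2 : ℝ)
  have e1 : (2 * a + b) ^ 2 < r ^ 2 := by
    rw [sq_lt_sq, abs_lt, abs_of_nonneg h0]
    constructor <;> linarith
  have e2 : (a + 2 * b) ^ 2 < r ^ 2 := by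
    rw [sq_lt_sq, abs_lt, abs_of_nonneg h0]
    constructor <;> linarith
  have e3 : (b - a) ^ 2 < r ^ 2 := by
    rw [sq_lt_sq, abs_lt, abs_of_nonneg h0]
    constructor <;> linarith
  nlinarith [sq_nonneg r]

/-- the letter of a direction. -/
def encA (d : Pt) : Fin 3 :=
  if d = (1, 0) ∨ d = (-1, 0) then 0 else if d = (-1, 1) ∨ d = (1, -1) then 1 else 2

lemma encwa_exp (k : ℕ) : Complex.exp (2 * (Real.pi : ℂ) * Complex.I * (k : ℂ) / 3) = (zt * zt) ^ k := by
  have h : zt = Complex.exp ((Real.pi / 3 : ℝ) * Complex.I) := by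
    rw [Complex.exp_mul_I, ← Complex.ofReal_cos, ← Complex.ofReal_sin, Real.cos_pi_div_three,
      Real.sin_pi_div_three]
    apply Complex.ext <;> simp [zt]
  rw [h, ← Complex.exp_add, ← Complex.exp_nat_mul]
  congr 1
  push_cast
  ring

lemma encwa_dirs : ∀ d ∈ dirs, (cl d = 1 ∧ (d = (1, 0) ∨ d = (-1, 1) ∨ d = (0, -1))) ∨
    (cl d = -1 ∧ (d = (-1, 0) ∨ d = (1, -1) ∨ d = (0, 1))) := by
  decide

lemma encwa_one_ne : (1 : ZMod 3) ≠ -1 := by decide

lemma encA_inj : ∀ d ∈ dirs, ∀ d' ∈ dirs, cl d = cl d' → encA d = encA d' → d = d' := by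
  decide

lemma encwa_f {f : ℕ → Fin 3 → ℂ} (hf : ∀ i a, f i a =
    (-1 : ℂ) ^ i * Complex.exp (2 * (Real.pi : ℂ) * Complex.I * ((a : ℕ) : ℂ) / 3)) (i : ℕ) {d : Pt}
    (hd : d ∈ dirs) (hc : cl d = if Even i then 1 else -1) : f i (encA d) = emb d := by
  have e0 : encA (1, 0) = 0 := by decide
  have e1 : encA (-1, 1) = 1 := by decide
  have e2 : encA (0, -1) = 2 := by decide
  have e3 : encA (-1, 0) = 0 := by decide
  have e4 : encA (1, -1) = 1 := by decide
  have e5 : encA (0, 1) = 2 := by decide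
  have hz4 : (zt * zt) ^ 2 = - zt := by
    rw [zt_sq]
    linear_combination zt_sq
  rw [hf, encwa_exp]
  by_cases hi : Even i
  · rw [if_pos hi] at hc
    rw [hi.neg_one_pow, one_mul]
    rcases encwa_dirs d hd with ⟨-, h | h | h⟩ | ⟨h, -⟩
    · subst h
      rw [e0]
      simp [emb]
    · subst h
      rw [e1]
      simp only [Fin.val_one, pow_one, zt_sq, emb]
      push_cast
      ring
    · subst h
      rw [e2]
      simp only [Fin.val_two, hz4, emb]
      push_cast
      ring
    · exact absurd (hc.symm.trans h) encwa_one_ne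
  · rw [if_neg hi] at hc
    rw [(Nat.not_even_iff_odd.1 hi).neg_one_pow]
    rcases encwa_dirs d hd with ⟨h, -⟩ | ⟨-, h | h | h⟩
    · exact absurd (h.symm.trans hc) encwa_one_ne
    · subst h
      rw [e3]
      simp [emb]
    · subst h
      rw [e4]
      simp only [Fin.val_one, pow_one, zt_sq, emb]
      push_cast
      ring
    · subst h
      rw [e5]
      simp only [Fin.val_two, hz4, emb]
      push_cast
      ring

lemma encwa_pos_succ {n : ℕ} (f : ℕ → Fin 3 → ℂ) (s : Fin n → Fin 3) {j : ℕ} (hj : j < n) :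
    SawNu.pos f s (j + 1) = SawNu.pos f s j + f j (s ⟨j, hj⟩) := by
  have h : Finset.univ.filter (fun i : Fin n => (i : ℕ) < j + 1) =
      insert (⟨j, hj⟩ : Fin n) (Finset.univ.filter (fun i : Fin n => (i : ℕ) < j)) := by
    ext i
    simp only [Finset.mem_filter, Finset.mem_univ, true_and, Finset.mem_insert, Fin.ext_iff]
    omega
  unfold SawNu.pos
  rw [h, Finset.sum_insert (by simp), add_comm]

/-- the positions of the walk with the letters of the directions of a word. -/
lemma encwa_pos {f : ℕ → Fin 3 → ℂ} (hf : ∀ i a, f i a =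
    (-1 : ℂ) ^ i * Complex.exp (2 * (Real.pi : ℂ) * Complex.I * ((a : ℕ) : ℂ) / 3)) {n : ℕ} {d : Pt}
    (hd : d ∈ dirs) (hc : cl d = 1) (t : List Bool) (s : Fin n → Fin 3)
    (hs : ∀ i : Fin n, s i = encA (dx d t i)) : ∀ j, j ≤ n → SawNu.pos f s j = emb (vx oo d t j) := by
  intro j
  induction j with
  | zero =>
    intro _
    unfold SawNu.pos
    simp [vx, vs, oo, emb]
  | succ j ih =>
    intro hj
    have hj' : j < n := hj
    rw [encwa_pos_succ f s hj', ih hj'.le, hs ⟨j, hj'⟩]
    have h1 : f j (encA (dx d t j)) = emb (dx d t j) := by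
      apply encwa_f hf
      · exact ds_mem hd j
      · have := cl_ds (d0 := d) (τ := tf t) j
        rw [hc] at this
        exact this
    have h2 : vx oo d t (j + 1) = vx oo d t j + dx d t j := rfl
    rw [h2, emb_add]
    exact congrArg _ h1

lemma encwa_turn_inj : ∀ e ∈ dirs, ∀ b b' : Bool, turn b e = turn b' e → b = b' := by
  decide

/-- the word is determined by the letters of the directions and the last letter. -/
lemma encwa_inj {n : ℕ} {d : Pt} (hd : d ∈ dirs) {t t' : List Bool} (ht : t.length = n)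
    (ht' : t'.length = n) (h : ∀ i, i < n → encA (dx d t i) = encA (dx d t' i))
    (hl : tf t (n - 1) = tf t' (n - 1)) : t = t' := by
  have hdx : ∀ i, i < n → dx d t i = dx d t' i := by
    intro i hi
    apply encA_inj _ (ds_mem hd i) _ (ds_mem hd i) _ (h i hi)
    show cl (ds d (tf t) i) = cl (ds d (tf t') i)
    rw [cl_ds, cl_ds]
  apply tf_ext (ht.trans ht'.symm)
  intro i hi
  rw [ht] at hi
  by_cases hi' : i + 1 < n
  · have h1 : turn (tf t i) (dx d t i) = turn (tf t' i) (dx d t' i) := hdx (i + 1) hi'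
    rw [hdx i hi] at h1
    have h2 : dx d t' i ∈ dirs := ds_mem hd i
    exact encwa_turn_inj _ h2 _ _ h1
  · have : i = n - 1 := by omega
    rw [this, hl]

/-- the number of walks. -/
theorem enc_lower {f : ℕ → Fin 3 → ℂ} (hf : ∀ i a, f i a =
    (-1 : ℂ) ^ i * Complex.exp (2 * (Real.pi : ℂ) * Complex.I * ((a : ℕ) : ℂ) / 3)) {n : ℕ} (hn : 1 ≤ n) :
    NW n ≤ 2 * (SawNu.saw f n).card := by
  have _ := hn
  set d : Pt := (0, -1) with hdd
  have hd : d ∈ dirs := by decide
  have hc : cl d = 1 := by decide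
  have hv : ∀ (t : List Bool) (i : ℕ), vx oo d t i = - vx oo up t i := by
    intro t i
    have h1 := vx_mulE (-1, 0) oo oo up t i
    have h2 : mulE (-1, 0) up = d := by decide
    rw [h2] at h1
    rw [h1]
    simp [mulE, oo]
    rfl
  set P : Set (List Bool) := {t : List Bool | t.length = n ∧ Inj oo up t} with hP
  set φ : List Bool → (Fin n → Fin 3) × Bool := fun t => (fun i => encA (dx d t i), tf t (n - 1)) with hφ
  have hmaps : ∀ t ∈ P, φ t ∈ ((SawNu.saw f n ×ˢ (Finset.univ : Finset Bool) :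
      Finset ((Fin n → Fin 3) × Bool)) : Set ((Fin n → Fin 3) × Bool)) := by
    rintro t ⟨ht1, ht2⟩
    rw [Finset.mem_coe, Finset.mem_product]
    refine ⟨?_, Finset.mem_univ _⟩
    unfold SawNu.saw
    rw [Finset.mem_filter]
    refine ⟨Finset.mem_univ _, ?_⟩
    intro j₁ j₂ h12
    have hp := encwa_pos hf hd hc t (fun i : Fin n => encA (dx d t i)) (fun _ => rfl)
    have h12' : emb (vx oo d t j₁) = emb (vx oo d t j₂) := by
      rw [← hp j₁ (by omega), ← hp j₂ (by omega)]
      exact h12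
    have h3 := encwa_emb_inj h12'
    rw [hv, hv, neg_inj] at h3
    by_contra hne
    rcases lt_or_gt_of_ne (fun h => hne (Fin.ext h) : (j₁ : ℕ) ≠ j₂) with h | h
    · exact ht2 j₁ j₂ h (by omega) h3
    · exact ht2 j₂ j₁ h (by omega) h3.symm
  have hinj : Set.InjOn φ P := by
    rintro t ⟨ht1, -⟩ t' ⟨ht1', -⟩ h
    simp only [hφ, Prod.mk.injEq] at h
    refine encwa_inj hd ht1 ht1' (fun i hi => ?_) h.2
    exact congrFun h.1 ⟨i, hi⟩
  have h4 : NW n ≤ ((SawNu.saw f n ×ˢ (Finset.univ : Finset Bool) :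
      Finset ((Fin n → Fin 3) × Bool)) : Set ((Fin n → Fin 3) × Bool)).ncard := by
    unfold NW
    exact Set.ncard_le_ncard_of_injOn φ hmaps hinj (Finset.finite_toSet _)
  rw [Set.ncard_coe_finset, Finset.card_product, Finset.card_univ, Fintype.card_bool] at h4
  omega

private def encWB_dir : Fin 3 → Pt := ![(1, 0), (-1, 1), (0, -1)]

private def encWB_sdir (i : ℕ) (a : Fin 3) : Pt := if Even i then encWB_dir a else -encWB_dir a

private lemma encWB_sdir_mem (i : ℕ) (a : Fin 3) : encWB_sdir i a ∈ dirs := by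
  unfold encWB_sdir
  split_ifs
  · revert a
    decide
  · revert a
    decide

private lemma encWB_sdir_inj (i : ℕ) {a b : Fin 3} (h : encWB_sdir i a = encWB_sdir i b) : a = b := by
  unfold encWB_sdir at h
  split_ifs at h
  · revert a b
    decide
  · revert a b
    decide

private lemma encWB_turn (i : ℕ) {a b : Fin 3} (h : a ≠ b) :
    ∃ c, turn c (encWB_sdir i a) = encWB_sdir (i + 1) b := by
  unfold encWB_sdir
  by_cases hi : Even i
  · have h1 : ¬ Even (i + 1) := by
      rw [Nat.even_add_one, not_not]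
      exact hi
    rw [if_pos hi, if_neg h1]
    revert a b
    decide
  · have h1 : Even (i + 1) := by
      rw [Nat.even_add_one]
      exact hi
    rw [if_neg hi, if_pos h1]
    revert a b
    decide

private lemma encWB_opp (i : ℕ) (a : Fin 3) : encWB_sdir i a + encWB_sdir (i + 1) a = 0 := by
  unfold encWB_sdir
  by_cases hi : Even i
  · have h1 : ¬ Even (i + 1) := by
      rw [Nat.even_add_one, not_not]
      exact hi
    rw [if_pos hi, if_neg h1]
    exact add_neg_cancel _
  · have h1 : Even (i + 1) := by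
      rw [Nat.even_add_one]
      exact hi
    rw [if_neg hi, if_pos h1]
    exact neg_add_cancel _

private lemma encWB_exp (a : Fin 3) :
    Complex.exp (2 * (Real.pi : ℂ) * Complex.I * ((a : ℕ) : ℂ) / 3) = emb (encWB_dir a) := by
  have h3 : 2 * Real.pi / 3 = Real.pi - Real.pi / 3 := by ring
  have h4 : 4 * Real.pi / 3 = Real.pi / 3 + Real.pi := by ring
  have key : ∀ x : ℝ, ∀ z : ℂ, z = (x : ℂ) * Complex.I → Complex.exp z = ⟨Real.cos x, Real.sin x⟩ := by
    intro x z hz
    rw [hz]
    apply Complex.ext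
    · exact Complex.exp_ofReal_mul_I_re x
    · exact Complex.exp_ofReal_mul_I_im x
  fin_cases a
  · show Complex.exp (2 * (Real.pi : ℂ) * Complex.I * ((0 : ℕ) : ℂ) / 3) = emb (1, 0)
    rw [Nat.cast_zero, mul_zero, zero_div, Complex.exp_zero]
    apply Complex.ext
    · rw [emb_re]
      simp
    · rw [emb_im]
      simp
  · show Complex.exp (2 * (Real.pi : ℂ) * Complex.I * ((1 : ℕ) : ℂ) / 3) = emb (-1, 1)
    rw [key (2 * Real.pi / 3) _ (by push_cast; ring)]
    apply Complex.ext
    · rw [emb_re]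
      show Real.cos (2 * Real.pi / 3) = _
      rw [h3, Real.cos_pi_sub, Real.cos_pi_div_three]
      norm_num
    · rw [emb_im]
      show Real.sin (2 * Real.pi / 3) = _
      rw [h3, Real.sin_pi_sub, Real.sin_pi_div_three]
      norm_num
  · show Complex.exp (2 * (Real.pi : ℂ) * Complex.I * ((2 : ℕ) : ℂ) / 3) = emb (0, -1)
    rw [key (4 * Real.pi / 3) _ (by push_cast; ring)]
    apply Complex.ext
    · rw [emb_re]
      show Real.cos (4 * Real.pi / 3) = _
      rw [h4, Real.cos_add_pi, Real.cos_pi_div_three]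
      norm_num
    · rw [emb_im]
      show Real.sin (4 * Real.pi / 3) = _
      rw [h4, Real.sin_add_pi, Real.sin_pi_div_three]
      norm_num

private lemma encWB_f {f : ℕ → Fin 3 → ℂ} (hf : ∀ i a, f i a =
    (-1 : ℂ) ^ i * Complex.exp (2 * (Real.pi : ℂ) * Complex.I * ((a : ℕ) : ℂ) / 3)) (i : ℕ) (a : Fin 3) :
    f i a = emb (encWB_sdir i a) := by
  rw [hf, encWB_exp]
  unfold encWB_sdir
  by_cases hi : Even i
  · rw [if_pos hi, hi.neg_one_pow, one_mul]
  · rw [if_neg hi, (Nat.not_even_iff_odd.1 hi).neg_one_pow, emb_neg]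
    ring

/-- the vertices of the walk. -/
private def encWB_P {n : ℕ} (s : Fin n → Fin 3) (j : ℕ) : Pt :=
  ∑ i ∈ Finset.univ.filter (fun i : Fin n => (i : ℕ) < j), encWB_sdir (i : ℕ) (s i)

private lemma encWB_P_zero {n : ℕ} (s : Fin n → Fin 3) : encWB_P s 0 = oo := by
  unfold encWB_P
  rw [Finset.filter_false_of_mem (by
    intro i _
    omega), Finset.sum_empty]
  rfl

private lemma encWB_P_succ {n : ℕ} (s : Fin n → Fin 3) {j : ℕ} (hj : j < n) :
    encWB_P s (j + 1) = encWB_P s j + encWB_sdir j (s ⟨j, hj⟩) := by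
  unfold encWB_P
  have e : Finset.univ.filter (fun i : Fin n => (i : ℕ) < j + 1) =
      insert ⟨j, hj⟩ (Finset.univ.filter (fun i : Fin n => (i : ℕ) < j)) := by
    ext i
    simp only [Finset.mem_filter, Finset.mem_univ, true_and, Finset.mem_insert, Fin.ext_iff]
    omega
  rw [e, Finset.sum_insert, add_comm]
  simp

private lemma encWB_emb_sum {κ : Type} (S : Finset κ) (g : κ → Pt) : emb (∑ i ∈ S, g i) = ∑ i ∈ S, emb (g i) := by
  induction S using Finset.induction_on with
  | empty =>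
    rw [Finset.sum_empty, Finset.sum_empty]
    simp [emb]
  | insert a s ha ih => rw [Finset.sum_insert ha, Finset.sum_insert ha, emb_add, ih]

private lemma encWB_pos {f : ℕ → Fin 3 → ℂ} (hf : ∀ i a, f i a =
    (-1 : ℂ) ^ i * Complex.exp (2 * (Real.pi : ℂ) * Complex.I * ((a : ℕ) : ℂ) / 3)) {n : ℕ} (s : Fin n → Fin 3)
    (j : ℕ) : SawNu.pos f s j = emb (encWB_P s j) := by
  unfold SawNu.pos encWB_P
  rw [encWB_emb_sum]
  exact Finset.sum_congr rfl (fun i _ => encWB_f hf _ _)

/-- from words back to the encoding. -/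
private noncomputable def encWB_dec (n : ℕ) (d : Pt) (t : List Bool) : Fin n → Fin 3 :=
  fun i => if h : ∃ a, encWB_sdir (i : ℕ) a = dx d t i then h.choose else 0

private lemma encWB_main {f : ℕ → Fin 3 → ℂ} (hf : ∀ i a, f i a =
    (-1 : ℂ) ^ i * Complex.exp (2 * (Real.pi : ℂ) * Complex.I * ((a : ℕ) : ℂ) / 3)) {n : ℕ} (hn : 1 ≤ n)
    {s : Fin n → Fin 3} (hs : s ∈ SawNu.saw f n) :
    ∃ d ∈ dirs, ∃ t : List Bool, t.length = n ∧ Inj oo d t ∧ (∀ j, j ≤ n → vx oo d t j = encWB_P s j) ∧
      encWB_dec n d t = s := by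
  unfold SawNu.saw at hs
  rw [Finset.mem_filter] at hs
  have hinj := hs.2
  -- consecutive steps are different
  have hne : ∀ i : ℕ, ∀ h : i + 1 < n, s ⟨i, by omega⟩ ≠ s ⟨i + 1, h⟩ := by
    intro i h heq
    have h1 := hinj ⟨i, by omega⟩ ⟨i + 2, by omega⟩ (by
      show SawNu.pos f s i = SawNu.pos f s (i + 2)
      rw [encWB_pos hf, encWB_pos hf, encWB_P_succ s (j := i + 1) (by omega), encWB_P_succ s (j := i) (by omega),
        ← heq, add_assoc, encWB_opp, add_zero])
    have h2 := congrArg Fin.val h1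
    simp at h2
  have hex : ∀ i : ℕ, ∃ c : Bool, ∀ h : i + 1 < n, turn c (encWB_sdir i (s ⟨i, by omega⟩)) =
      encWB_sdir (i + 1) (s ⟨i + 1, h⟩) := by
    intro i
    by_cases h : i + 1 < n
    · obtain ⟨c, hc⟩ := encWB_turn i (hne i h)
      exact ⟨c, fun _ => hc⟩
    · exact ⟨true, fun h' => absurd h' h⟩
  choose c hc using hex
  refine ⟨encWB_sdir 0 (s ⟨0, by omega⟩), encWB_sdir_mem _ _, List.ofFn (fun i : Fin n => c i), List.length_ofFn, ?_⟩
  set t := List.ofFn (fun i : Fin n => c i) with ht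
  set d := encWB_sdir 0 (s ⟨0, by omega⟩) with hd
  have htf : ∀ i, i < n → tf t i = c i := by
    intro i hi
    unfold tf
    rw [ht, List.getD_eq_getElem _ _ (by rw [List.length_ofFn]; exact hi), List.getElem_ofFn]
  have hdx : ∀ i : ℕ, ∀ h : i < n, dx d t i = encWB_sdir i (s ⟨i, h⟩) := by
    intro i
    induction i with
    | zero =>
      intro h
      rfl
    | succ i ih =>
      intro h
      show turn (tf t i) (dx d t i) = _
      rw [ih (by omega), htf i (by omega)]
      exact hc i h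
  have hvx : ∀ j, j ≤ n → vx oo d t j = encWB_P s j := by
    intro j
    induction j with
    | zero =>
      intro _
      rw [encWB_P_zero]
      rfl
    | succ j ih =>
      intro h
      show vx oo d t j + dx d t j = _
      rw [ih (by omega), hdx j (by omega), encWB_P_succ s (by omega)]
  refine ⟨?_, hvx, ?_⟩
  · intro i k hik hk heq
    rw [ht, List.length_ofFn] at hk
    rw [hvx i (by omega), hvx k hk] at heq
    have h1 := hinj ⟨i, by omega⟩ ⟨k, by omega⟩ (by
      show SawNu.pos f s i = SawNu.pos f s k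
      rw [encWB_pos hf, encWB_pos hf, heq])
    have h2 := congrArg Fin.val h1
    simp at h2
    omega
  · funext i
    unfold encWB_dec
    have hi := hdx i i.2
    have hex : ∃ a, encWB_sdir (i : ℕ) a = dx d t i := ⟨s i, hi.symm⟩
    rw [dif_pos hex]
    apply encWB_sdir_inj (i : ℕ)
    rw [hex.choose_spec, hi]

/-- the number of walks with a large displacement. -/
theorem enc_upper {f : ℕ → Fin 3 → ℂ} (hf : ∀ i a, f i a =
    (-1 : ℂ) ^ i * Complex.exp (2 * (Real.pi : ℂ) * Complex.I * ((a : ℕ) : ℂ) / 3)) {n : ℕ} (hn : 1 ≤ n)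
    (r : ℤ) :
    ((SawNu.saw f n).filter (fun s => ∃ j : Fin (n + 1), (r : ℝ) ≤ ‖SawNu.pos f s j‖)).card ≤
      ∑ d ∈ dirs, ∑ e ∈ dirs, (FW d e n r).ncard := by
  have hfin : ∀ d e, (FW d e n r).Finite := fun d e =>
    (List.finite_length_eq Bool n).subset (fun t ht => ht.1)
  have hsub : (SawNu.saw f n).filter (fun s => ∃ j : Fin (n + 1), (r : ℝ) ≤ ‖SawNu.pos f s j‖) ⊆
      dirs.biUnion (fun d => dirs.biUnion (fun e => (hfin d e).toFinset.image (encWB_dec n d))) := by
    intro s hs
    rw [Finset.mem_filter] at hs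
    obtain ⟨hs, j, hj⟩ := hs
    obtain ⟨d, hd, t, ht1, ht2, ht3, ht4⟩ := encWB_main hf hn hs
    obtain ⟨e, he, hle⟩ := exists_ip (encWB_P s j)
    rw [Finset.mem_biUnion]
    refine ⟨d, hd, ?_⟩
    rw [Finset.mem_biUnion]
    refine ⟨e, he, ?_⟩
    rw [Finset.mem_image]
    refine ⟨t, ?_, ht4⟩
    rw [Set.Finite.mem_toFinset]
    refine ⟨ht1, ht2, j, by omega, ?_⟩
    rw [ht3 j (by omega)]
    rw [encWB_pos hf] at hj
    have h1 := hj.trans hle
    exact_mod_cast h1
  refine (Finset.card_le_card hsub).trans (Finset.card_biUnion_le.trans (Finset.sum_le_sum (fun d _ =>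
    Finset.card_biUnion_le.trans (Finset.sum_le_sum (fun e _ => ?_)))))
  refine Finset.card_image_le.trans (le_of_eq ?_)
  rw [Set.ncard_eq_toFinset_card _ (hfin d e)]

end HexObs
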