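import Pool.Agent.TST.HWDefs
import Pool.Agent.HexObs.Cut2

/-!
TST LowCut: every self-avoiding word splits at a lowest vertex (in the direction e) into two half plane words.
n >= 1. Let q be the number of a vertex at the lowest level (ip with e).
(B) its class is the one with two upper neighbours: t2 = letter at q seen from the half edge below (direction e), then
the letters of t after number q (number of letters 1 + (n - q)); t1 = the letter at q seen from below towards q-1, then
the negated letters of t in reverse order, and the letter `true` at the vertex 0 (number of letters 1 + q). If q = n the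
first (and only) letter of t2 is the last letter of t. Both are in HPw after rotation of e to up. (t1, t2) determines t.
One of them reaches the level 3R.
(A) the other class: the only upper neighbour is in the direction e, so q = 0 or q = n: the word (or the reversed word
with last letter that of t) is in HPR R, or both end points are at the lowest level; then the two last vertices are
removed and two vertices are added at the beginning (on the side given by the last letter of t).
-/

set_option autoImplicit false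

namespace HexObs

open Complex Finset ENNReal

namespace LowCutAux

lemma up_mem : up ∈ dirs := (show ((0, 1) : Pt) ∈ dirs by decide)

lemma lev_rot {e : Pt} (he : e ∈ dirs) (w : Pt) (s : List Bool) (i : ℕ) :
    levT oo up s i = ip (vx w e s i - w) e := by
  have hu := nrm_rotTo he up_mem
  have ha := rotTo_apply up he
  have h1 := vx_mulE (rotTo e up) w oo e s i
  rw [ha] at h1
  unfold levT
  rw [h1]
  have h2 : oo + mulE (rotTo e up) (vx w e s i - w) - oo = mulE (rotTo e up) (vx w e s i - w) := by abel
  rw [h2]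
  have h3 := ip_mulE (rotTo e up) (vx w e s i - w) e
  rw [ha, hu, one_mul] at h3
  exact h3

lemma inj_rot {e : Pt} (he : e ∈ dirs) {w : Pt} {s : List Bool} (h : Inj w e s) : Inj oo up s := by
  have hu := nrm_rotTo he up_mem
  have ha := rotTo_apply up he
  intro i k hik hk heq
  have h1 := vx_mulE (rotTo e up) w oo e s i
  have h2 := vx_mulE (rotTo e up) w oo e s k
  rw [ha] at h1 h2
  rw [h1, h2] at heq
  have h3 := mulE_inj hu (add_left_cancel heq)
  exact h i k hik hk (sub_left_injective h3)

/-- criterion for half plane words. -/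
lemma hp_of {e : Pt} (he : e ∈ dirs) {w : Pt} {s : List Bool} {V : ℕ → Pt} {N : ℕ} (φ : ℕ → ℕ)
    (h1 : ∀ k, 1 + k ≤ s.length → vx w e s (1 + k) = V (φ k) ∧ φ k ≤ N)
    (h2 : ∀ k l, k < l → 1 + l ≤ s.length → φ k ≠ φ l)
    (h3 : ∀ i k, i ≤ N → k ≤ N → i ≠ k → V i ≠ V k)
    (h4 : ∀ i, i ≤ N → ip w e < ip (V i) e) : s ∈ HPw := by
  have hlev : ∀ i, 1 ≤ i → i ≤ s.length → 0 < ip (vx w e s i - w) e := by
    intro i hi hil
    obtain ⟨k, rfl⟩ : ∃ k, i = 1 + k := ⟨i - 1, by omega⟩
    obtain ⟨hv, hφ⟩ := h1 k hil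
    rw [hv, ip_sub_left]
    have := h4 _ hφ
    linarith
  refine ⟨inj_rot he (w := w) ?_, ?_⟩
  · intro i k hik hk
    obtain ⟨l, rfl⟩ : ∃ l, k = 1 + l := ⟨k - 1, by omega⟩
    rcases Nat.eq_zero_or_pos i with hi | hi
    · intro heq
      have h5 := hlev (1 + l) (by omega) hk
      rw [← heq, hi] at h5
      have h6 : vx w e s 0 - w = 0 := sub_self w
      rw [h6] at h5
      simp [ip] at h5
    · obtain ⟨j, rfl⟩ : ∃ j, i = 1 + j := ⟨i - 1, by omega⟩
      obtain ⟨hv, hφ⟩ := h1 l hk
      obtain ⟨hv', hφ'⟩ := h1 j (by omega)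
      rw [hv, hv']
      exact h3 _ _ hφ' hφ (h2 j l (by omega) hk)
  · intro i hi hil
    rw [lev_rot he w]
    exact hlev i hi hil

lemma hpR_of {e : Pt} (he : e ∈ dirs) {w : Pt} {s : List Bool} {R : ℕ} (h : s ∈ HPw) {i : ℕ} (hi : i ≤ s.length)
    (hR : 3 * (R : ℤ) ≤ ip (vx w e s i) e - ip w e) : s ∈ HPR R := by
  refine ⟨h, i, hi, ?_⟩
  rw [lev_rot he w, ip_sub_left]
  exact hR

lemma vx_cons (w e : Pt) (c : Bool) (r : List Bool) (k : ℕ) :
    vx w e ([c] ++ r) (1 + k) = vx (w + e) (turn c e) r k := by
  have h := (vx_split w e [] c r k).1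
  simp only [List.nil_append, List.length_nil, zero_add] at h
  exact h

lemma tf_drop (t : List Bool) (q k : ℕ) : tf (t.drop q) k = tf t (q + k) := by
  unfold tf
  simp [List.getD_eq_getElem?_getD, List.getElem?_drop]

lemma vx_drop (v d : Pt) (t : List Bool) (q k : ℕ) :
    vx (vx v d t q) (dx d t q) (t.drop q) k = vx v d t (q + k) := by
  have h := vs_shift v d (tf t) q k
  show vs (vs v d (tf t) q) (ds d (tf t) q) (tf (t.drop q)) k = vs v d (tf t) (q + k)
  rw [h]
  exact vs_congr k (fun j _ => tf_drop t q j)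

lemma t2_vx {d e : Pt} {t : List Bool} {q : ℕ} {c : Bool} (hc : turn c e = dx d t q) (k : ℕ) :
    vx (vx oo d t q - e) e ([c] ++ t.drop q) (1 + k) = vx oo d t (q + k) := by
  rw [vx_cons, sub_add_cancel, hc, vx_drop]

lemma rev_take_vx {d : Pt} {t : List Bool} {q : ℕ} (hq : 1 ≤ q) (hql : q ≤ t.length) (b : Bool) {k : ℕ}
    (hk : k ≤ q) :
    vx (vx oo d t q) (-(dx d t (q - 1))) (rev (t.take (q - 1)) ++ [b]) k = vx oo d t (q - k) := by
  obtain ⟨s, hs⟩ : ∃ s, s = t.take (q - 1) := ⟨_, rfl⟩
  have hsl : s.length = q - 1 := by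
    rw [hs, List.length_take]
    omega
  have ht : t = s ++ t.drop (q - 1) := by rw [hs, List.take_append_drop]
  have hv : ∀ i, i ≤ q → vx oo d t i = vx oo d s i := by
    intro i hi
    conv_lhs => rw [ht]
    exact vx_append (by omega)
  have hd : dx d t (q - 1) = dx d s s.length := by
    conv_lhs => rw [ht]
    rw [hsl]
    exact dx_append (by omega)
  rw [← hs, vx_append (by rw [rev_length]; omega), hd, hv q le_rfl, hv (q - k) (by omega)]
  have h := vx_rev oo d s k (by omega)
  have e1 : tip oo d s = vx oo d s q := by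
    unfold tip
    rw [hsl, Nat.sub_add_cancel hq]
  rw [e1] at h
  rw [h]
  congr 1
  omega

lemma t1_vx {d e : Pt} {t : List Bool} {q : ℕ} (hq : 1 ≤ q) (hql : q ≤ t.length) {c : Bool}
    (hc : turn c e = -(dx d t (q - 1))) {k : ℕ} (hk : k ≤ q) :
    vx (vx oo d t q - e) e ([c] ++ (rev (t.take (q - 1)) ++ [true])) (1 + k) = vx oo d t (q - k) := by
  rw [vx_cons, sub_add_cancel, hc, rev_take_vx hq hql true hk]

/-- the decoding. -/
def dec (t1 t2 : List Bool) : List Bool :=
  if t1.length = 1 then t2.tail
  else rev (t1.tail.dropLast) ++ ([if t2.length = 1 then t2.headD true else t1.headD true] ++ t2.tail)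

lemma level_step (v d e : Pt) (t : List Bool) (i : ℕ) :
    ip (vx v d t (i + 1)) e = ip (vx v d t i) e + ip (dx d t i) e := by
  rw [vx_succ, ip_add_left]

lemma turn_cases {e f : Pt} (h : f = rotL e ∨ f = rotR e) : ∃ c : Bool, turn c e = f := by
  rcases h with h | h
  · exact ⟨true, by rw [h]; rfl⟩
  · exact ⟨false, by rw [h]; rfl⟩

lemma turn_inj : ∀ e ∈ dirs, ∀ b c : Bool, turn b e = turn c e → b = c := by decide

lemma cl_back (d : Pt) (t : List Bool) {q : ℕ} (hq : 1 ≤ q) : cl (-(dx d t (q - 1))) = cl (dx d t q) := by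
  obtain ⟨p, rfl⟩ : ∃ p, q = p + 1 := ⟨q - 1, by omega⟩
  rw [Nat.add_sub_cancel, cl_neg, cl_dx, cl_dx]
  by_cases hp : Even p
  · rw [if_pos hp, if_neg (by rw [Nat.even_add_one, not_not]; exact hp)]
  · rw [if_neg hp, if_pos (by rw [Nat.even_add_one]; exact hp), neg_neg]

section

variable {d e : Pt} {t : List Bool} {n R : ℕ}

/-- the data of a lowest vertex. -/
structure Low (d e : Pt) (t : List Bool) (n q : ℕ) : Prop where
  len : t.length = n
  inj : Inj oo d t
  le : q ≤ n
  low : ∀ i, i ≤ n → ip (vx oo d t q) e ≤ ip (vx oo d t i) e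

lemma vx_ne (hl : t.length = n) (hi : Inj oo d t) : ∀ i k, i ≤ n → k ≤ n → i ≠ k → vx oo d t i ≠ vx oo d t k := by
  intro i k h1 h2 h3
  rcases Nat.lt_or_gt_of_ne h3 with h4 | h4
  · exact hi i k h4 (by omega)
  · exact (hi k i h4 (by omega)).symm

/-- the step up from a lowest vertex of class B. -/
lemma stepB (hd : d ∈ dirs) (he : e ∈ dirs) {q : ℕ} (h : Low d e t n q) (hB : cl (dx d t q) = -cl e) (hq : q < n) :
    ∃ c : Bool, turn c e = dx d t q := by
  have h1 := h.low (q + 1) hq
  rw [level_step] at h1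
  apply turn_cases
  rcases step_check' e he _ (dx_mem hd t q) hB with ⟨_, h3⟩ | ⟨h2, _⟩ | ⟨h2, _⟩
  · omega
  · exact Or.inl h2
  · exact Or.inr h2

lemma backB (hd : d ∈ dirs) (he : e ∈ dirs) {q : ℕ} (h : Low d e t n q) (hB : cl (dx d t q) = -cl e) (hq : 1 ≤ q) :
    ∃ c : Bool, turn c e = -(dx d t (q - 1)) := by
  have h1 := h.low (q - 1) (by have := h.le; omega)
  have h2 := level_step oo d e t (q - 1)
  rw [Nat.sub_add_cancel hq] at h2
  have h3 : ip (-(dx d t (q - 1))) e = -ip (dx d t (q - 1)) e := ip_neg_left _ _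
  apply turn_cases
  rcases step_check' e he _ (neg_mem_dirs (dx_mem hd t (q - 1))) (by rw [cl_back d t hq, hB]) with
    ⟨_, h4⟩ | ⟨h4, _⟩ | ⟨h4, _⟩
  · omega
  · exact Or.inl h4
  · exact Or.inr h4

lemma stepA (hd : d ∈ dirs) (he : e ∈ dirs) {q : ℕ} (h : Low d e t n q) (hA : cl (dx d t q) = cl e) (hq : q < n) :
    dx d t q = e := by
  have h1 := h.low (q + 1) hq
  rw [level_step] at h1
  rcases step_check e he _ (dx_mem hd t q) hA with ⟨h2, _⟩ | ⟨_, h3⟩ | ⟨_, h3⟩
  · exact h2
  · omega
  · omega

lemma backA (hd : d ∈ dirs) (he : e ∈ dirs) {q : ℕ} (h : Low d e t n q) (hA : cl (dx d t q) = cl e) (hq : 1 ≤ q) :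
    -(dx d t (q - 1)) = e := by
  have h1 := h.low (q - 1) (by have := h.le; omega)
  have h2 := level_step oo d e t (q - 1)
  rw [Nat.sub_add_cancel hq] at h2
  have h3 : ip (-(dx d t (q - 1))) e = -ip (dx d t (q - 1)) e := ip_neg_left _ _
  rcases step_check e he _ (neg_mem_dirs (dx_mem hd t (q - 1))) (by rw [cl_back d t hq, hA]) with
    ⟨h4, _⟩ | ⟨_, h4⟩ | ⟨_, h4⟩
  · exact h4
  · omega
  · omega

/-- lowest vertices of class A are end points. -/
lemma endA (hd : d ∈ dirs) (he : e ∈ dirs) {q : ℕ} (h : Low d e t n q) (hA : cl (dx d t q) = cl e) :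
    q = 0 ∨ q = n := by
  by_contra hcon
  push Not at hcon
  have hq := h.le
  have h1 := stepA hd he h hA (by omega)
  have h2 := backA hd he h hA (by omega)
  obtain ⟨p, rfl⟩ : ∃ p, q = p + 1 := ⟨q - 1, by omega⟩
  rw [Nat.add_sub_cancel] at h2
  apply h.inj p (p + 2) (by omega) (by rw [h.len]; omega)
  rw [show p + 2 = p + 1 + 1 from rfl, vx_succ oo d t (p + 1), vx_succ oo d t p, h1, ← h2]
  abel

/-- class B. -/
lemma caseB (hd : d ∈ dirs) (he : e ∈ dirs) (hn : 1 ≤ n) {q : ℕ} (h : Low d e t n q)
    (hB : cl (dx d t q) = -cl e) (hR : ∃ i, i ≤ n ∧ 3 * (R : ℤ) ≤ ip (vx oo d t i) e) :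
    ∃ p : List Bool × List Bool, p.1 ∈ HPw ∧ p.2 ∈ HPw ∧ (p.1 ∈ HPR R ∨ p.2 ∈ HPR R) ∧
      p.1.length + p.2.length = n + 2 ∧ dec p.1 p.2 = t := by
  obtain ⟨w, hw⟩ : ∃ w, w = vx oo d t q - e := ⟨_, rfl⟩
  have hwl : ip w e = ip (vx oo d t q) e - 2 := by rw [hw, ip_sub_left, ip_self_dir he]
  have hlow : ∀ i, i ≤ n → ip w e < ip (vx oo d t i) e := by
    intro i hi
    have := h.low i hi
    omega
  have hne := vx_ne h.len h.inj
  have hq := h.le
  have hlen := h.len
  -- the second word
  have h2 : ∃ c : Bool, (q < n → turn c e = dx d t q) ∧ (q = n → c = tf t (n - 1)) := by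
    rcases Nat.lt_or_ge q n with h3 | h3
    · obtain ⟨c, hc⟩ := stepB hd he h hB h3
      exact ⟨c, fun _ => hc, fun h4 => by omega⟩
    · exact ⟨tf t (n - 1), fun h4 => by omega, fun _ => rfl⟩
  obtain ⟨c, hc1, hc2⟩ := h2
  have hv2 : ∀ k, 1 + k ≤ ([c] ++ t.drop q).length → vx w e ([c] ++ t.drop q) (1 + k) = vx oo d t (q + k) ∧
      q + k ≤ n := by
    intro k hk
    rw [List.length_append, List.length_drop, List.length_singleton] at hk
    refine ⟨?_, by omega⟩
    rcases Nat.lt_or_ge q n with h3 | h3
    · rw [hw]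
      exact t2_vx (hc1 h3) k
    · have hk0 : k = 0 := by omega
      rw [hk0, vx_cons, hw, sub_add_cancel]
      rfl
  have hl2 : ([c] ++ t.drop q).length = 1 + (n - q) := by
    rw [List.length_append, List.length_drop, List.length_singleton, hlen]
  have hm2 : [c] ++ t.drop q ∈ HPw :=
    hp_of he (fun k => q + k) hv2 (fun k l hkl _ => by omega) hne hlow
  -- the first word
  have h1 : ∃ t1 : List Bool, t1.length = 1 + q ∧
      (∀ k, 1 + k ≤ t1.length → vx w e t1 (1 + k) = vx oo d t (q - k) ∧ q - k ≤ n) ∧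
      dec t1 ([c] ++ t.drop q) = t := by
    rcases Nat.eq_zero_or_pos q with h3 | h3
    · refine ⟨[true], by rw [h3]; rfl, ?_, ?_⟩
      · intro k hk
        rw [List.length_singleton] at hk
        have hk0 : k = 0 := by omega
        refine ⟨?_, by omega⟩
        rw [hk0, Nat.sub_zero, hw]
        show vx oo d t q - e + e = vx oo d t q
        rw [sub_add_cancel]
      · unfold dec
        rw [if_pos (show [true].length = 1 from rfl), h3]
        rfl
    · obtain ⟨c', hc'⟩ := backB hd he h hB h3
      have hl1 : ([c'] ++ (rev (t.take (q - 1)) ++ [true])).length = 1 + q := by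
        rw [List.length_append, List.length_append, rev_length, List.length_take, List.length_singleton,
          List.length_singleton]
        omega
      refine ⟨[c'] ++ (rev (t.take (q - 1)) ++ [true]), hl1, ?_, ?_⟩
      · intro k hk
        refine ⟨?_, by omega⟩
        rw [hw]
        exact t1_vx h3 (by omega) hc' (by omega)
      · unfold dec
        rw [if_neg (by rw [hl1]; omega), hl2]
        have e1 : ([c'] ++ (rev (t.take (q - 1)) ++ [true])).tail.dropLast = rev (t.take (q - 1)) := by
          show (rev (t.take (q - 1)) ++ [true]).dropLast = _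
          rw [List.dropLast_concat]
        have e2 : ([c] ++ t.drop q).tail = t.drop q := rfl
        have e3 : (if 1 + (n - q) = 1 then ([c] ++ t.drop q).headD true
            else ([c'] ++ (rev (t.take (q - 1)) ++ [true])).headD true) = tf t (q - 1) := by
          rcases Nat.lt_or_ge q n with h4 | h4
          · rw [if_neg (by omega)]
            show c' = tf t (q - 1)
            have e4 := dx_succ d t (q - 1)
            rw [Nat.sub_add_cancel h3] at e4
            have e5 : dx d t (q - 1) = -(turn c' e) := by rw [hc', neg_neg]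
            have e6 : turn (!c') e = turn c' (dx d t (q - 1)) := by
              rw [e5, turn_neg, ← neg_turn_turn e he c']
            -- the direction of dx q
            have e7 := hc1 h4
            have e8 : c ≠ c' := by
              rintro rfl
              apply h.inj (q - 1) (q + 1) (by omega) (by omega)
              have e9 : vx oo d t q = vx oo d t (q - 1) + dx d t (q - 1) := by
                have := vx_succ oo d t (q - 1)
                rwa [Nat.sub_add_cancel h3] at this
              rw [vx_succ oo d t q, e9, ← e7, e5]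
              abel
            have e10 : c = !c' := by
              cases c <;> cases c' <;> simp at e8 ⊢
            rw [e10, e6] at e7
            rw [e4] at e7
            exact turn_inj _ (dx_mem hd t (q - 1)) _ _ e7
          · rw [if_pos (by omega)]
            show c = tf t (q - 1)
            have hqn : q = n := by omega
            rw [hc2 hqn, hqn]
        rw [e1, e2, e3, rev_rev]
        have e11 := take_split (t := t) (i := q - 1) (by omega)
        rw [Nat.sub_add_cancel h3] at e11
        exact e11.symm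
  obtain ⟨t1, hl1, hv1, hdec⟩ := h1
  have hm1 : t1 ∈ HPw := by
    refine hp_of he (fun k => q - k) hv1 ?_ hne hlow
    intro k l hkl hl
    rw [hl1] at hl
    show q - k ≠ q - l
    omega
  refine ⟨(t1, [c] ++ t.drop q), hm1, hm2, ?_, ?_, hdec⟩
  · obtain ⟨i, hi, hiR⟩ := hR
    have h0 : ip w e ≤ 0 := by
      have h3 := hlow 0 (by omega)
      have h4 : ip (vx oo d t 0) e = 0 := by
        show ip oo e = 0
        simp [ip, oo]
      omega
    rcases Nat.lt_or_ge i q with h3 | h3
    · left
      show t1 ∈ HPR R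
      refine hpR_of he (w := w) hm1 (i := 1 + (q - i)) (by omega) ?_
      rw [(hv1 (q - i) (by omega)).1, show q - (q - i) = i by omega]
      linarith
    · right
      show [c] ++ t.drop q ∈ HPR R
      refine hpR_of he (w := w) hm2 (i := 1 + (i - q)) (by omega) ?_
      rw [(hv2 (i - q) (by omega)).1, show q + (i - q) = i by omega]
      linarith
  · show t1.length + ([c] ++ t.drop q).length = n + 2
    rw [hl1, hl2]
    omega

/-- the class of a vertex is determined by its level. -/
lemma class_eq (hd : d ∈ dirs) (he : e ∈ dirs) {i j : ℕ} (h : ip (vx oo d t i) e = ip (vx oo d t j) e) :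
    cl (dx d t i) = cl (dx d t j) := by
  have h1 : -(cl (vx oo d t i) * cl e) = -(cl (vx oo d t j) * cl e) := by
    rw [← ip_mod, ← ip_mod, h]
  have h2 : cl oo = 0 := by
    simp [cl, oo]
  have h3 : cl d * cl e ≠ 0 := by
    have h4 := cl_dir_sq d hd
    rcases cl_dir_cases d hd e he with h5 | h5
    · rw [h5, h4]
      decide
    · rw [h5, mul_neg, h4]
      decide
  rw [cl_vx, cl_vx, h2] at h1
  rw [cl_dx, cl_dx]
  by_cases hi : Even i <;> by_cases hj : Even j
  · rw [if_pos hi, if_pos hj]
  · rw [if_pos hi, if_neg hj, zero_mul, neg_zero, zero_add] at h1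
    exact absurd (neg_eq_zero.1 h1.symm) h3
  · rw [if_neg hi, if_pos hj, zero_mul, neg_zero, zero_add] at h1
    exact absurd (neg_eq_zero.1 h1) h3
  · rw [if_neg hi, if_neg hj]

lemma low_of_eq {q i : ℕ} (h : Low d e t n q) (hi : i ≤ n) (hl : ip (vx oo d t i) e = ip (vx oo d t q) e) :
    Low d e t n i :=
  ⟨h.len, h.inj, hi, fun j hj => by rw [hl]; exact h.low j hj⟩

lemma ip_oo (e : Pt) : ip oo e = 0 := by simp [ip, oo]

/-- class A, both end points at the lowest level. -/
lemma caseA3 (he : e ∈ dirs) (hn : 2 ≤ n) (hlen : t.length = n) (hinj : Inj oo e t)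
    (hlow : ∀ i, i ≤ n → 0 ≤ ip (vx oo e t i) e) (hlast : dx e t (n - 1) = -e) (hzero : ip (vx oo e t n) e = 0)
    (hR1 : 1 ≤ R) (hR : ∃ i, i ≤ n ∧ 3 * (R : ℤ) ≤ ip (vx oo e t i) e) (b : Bool) :
    [b, !b] ++ t.take (n - 2) ∈ HPR R := by
  obtain ⟨w, hw⟩ : ∃ w, w = -e - turn b e := ⟨_, rfl⟩
  obtain ⟨V, hV⟩ : ∃ V : ℕ → Pt, V = fun k => if k = 0 then w + e else vx oo e t (k - 1) := ⟨_, rfl⟩
  have hV0 : V 0 = w + e := by rw [hV]; rfl
  have hVs : ∀ k, V (k + 1) = vx oo e t k := by
    intro k
    rw [hV]
    show (if k + 1 = 0 then w + e else vx oo e t (k + 1 - 1)) = vx oo e t k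
    rw [if_neg (by omega), Nat.add_sub_cancel]
  have hwl : ip w e = -3 := by
    rw [hw, ip_sub_left, ip_neg_left, ip_self_dir he, ip_comm (turn b e), ip_turn_self he]
    norm_num
  have hV0l : ip (V 0) e = -1 := by
    rw [hV0, ip_add_left, hwl, ip_self_dir he]
    norm_num
  have hsl : ([b, !b] ++ t.take (n - 2)).length = n := by
    rw [List.length_append, List.length_take]
    show 2 + _ = n
    omega
  have hvk : ∀ k, k ≤ n - 2 → vx w e ([b, !b] ++ t.take (n - 2)) (1 + (1 + k)) = vx oo e t k := by
    intro k hk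
    have e1 : [b, !b] ++ t.take (n - 2) = [b] ++ ([!b] ++ t.take (n - 2)) := rfl
    rw [e1, vx_cons, vx_cons, turn_turn]
    have e2 : w + e + turn b e = oo := by
      rw [hw]
      have : -e - turn b e + e + turn b e = 0 := by abel
      rw [this]
      rfl
    rw [e2]
    have e3 : t = t.take (n - 2) ++ t.drop (n - 2) := (List.take_append_drop _ _).symm
    conv_rhs => rw [e3]
    rw [vx_append (by rw [List.length_take]; omega)]
  have hne := vx_ne hlen hinj
  have hm : [b, !b] ++ t.take (n - 2) ∈ HPw := by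
    refine hp_of he (V := V) (N := n - 1) (fun k => k) ?_ (fun k l hkl _ => by omega) ?_ ?_ (w := w)
    · intro k hk
      rw [hsl] at hk
      refine ⟨?_, by omega⟩
      rcases Nat.eq_zero_or_pos k with h3 | h3
      · rw [h3, hV0]
        rfl
      · obtain ⟨j, rfl⟩ : ∃ j, k = j + 1 := ⟨k - 1, by omega⟩
        rw [hVs, add_comm j 1]
        exact hvk j (by omega)
    · intro i k hi hk hik
      rcases Nat.eq_zero_or_pos i with h3 | h3
      · obtain ⟨j, rfl⟩ : ∃ j, k = j + 1 := ⟨k - 1, by omega⟩
        intro heq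
        have h4 := hlow j (by omega)
        rw [← hVs, ← heq, h3, hV0l] at h4
        omega
      · obtain ⟨j, rfl⟩ : ∃ j, i = j + 1 := ⟨i - 1, by omega⟩
        rcases Nat.eq_zero_or_pos k with h5 | h5
        · intro heq
          have h4 := hlow j (by omega)
          rw [← hVs, heq, h5, hV0l] at h4
          omega
        · obtain ⟨l, rfl⟩ : ∃ l, k = l + 1 := ⟨k - 1, by omega⟩
          rw [hVs, hVs]
          exact hne j l (by omega) (by omega) (by omega)
    · intro i hi
      rcases Nat.eq_zero_or_pos i with h3 | h3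
      · rw [h3, hV0l, hwl]
        norm_num
      · obtain ⟨j, rfl⟩ : ∃ j, i = j + 1 := ⟨i - 1, by omega⟩
        rw [hVs, hwl]
        have := hlow j (by omega)
        omega
  obtain ⟨i, hi, hiR⟩ := hR
  have h3 : i ≤ n - 2 := by
    by_contra hcon
    have h4 : i = n ∨ i = n - 1 := by omega
    rcases h4 with h4 | h4
    · rw [h4, hzero] at hiR
      omega
    · have h5 := level_step oo e e t (n - 1)
      rw [Nat.sub_add_cancel (by omega), hzero, hlast, ip_neg_left, ip_self_dir he, ← h4] at h5
      omega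
  refine hpR_of he (w := w) hm (i := 1 + (1 + i)) (by rw [hsl]; omega) ?_
  rw [hvk i h3, hwl]
  omega

/-- class A. -/
lemma caseA (hd : d ∈ dirs) (he : e ∈ dirs) (hn : 1 ≤ n) (hR1 : 1 ≤ R) {q : ℕ} (h : Low d e t n q)
    (hA : cl (dx d t q) = cl e) (hR : ∃ i, i ≤ n ∧ 3 * (R : ℤ) ≤ ip (vx oo d t i) e) :
    t ∈ HPR R ∨ rev (t.take (n - 1)) ++ [tf t (n - 1)] ∈ HPR R ∨
      (2 ≤ n ∧ dx d t (n - 1) = -e ∧ [tf t (n - 1), !(tf t (n - 1))] ++ t.take (n - 2) ∈ HPR R) := by
  have hlen := h.len
  have hL0 : ip (vx oo d t 0) e = 0 := ip_oo e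
  by_cases h0 : ip (vx oo d t 0) e = ip (vx oo d t q) e
  · -- the first vertex is at the lowest level
    have hlow0 := low_of_eq h (Nat.zero_le n) h0
    have hA0 : cl (dx d t 0) = cl e := (class_eq hd he h0).trans hA
    have hde : d = e := stepA hd he hlow0 hA0 (by omega)
    subst hde
    have hnn : ∀ i, i ≤ n → 0 ≤ ip (vx oo d t i) d := by
      intro i hi
      have := hlow0.low i hi
      rwa [hL0] at this
    by_cases hn0 : ip (vx oo d t n) d = 0
    · right
      right
      have hlown := low_of_eq hlow0 le_rfl (hn0.trans hL0.symm)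
      have hAn : cl (dx d t n) = cl d := (class_eq hd hd (hn0.trans hL0.symm)).trans hA0
      have hback := backA hd hd hlown hAn hn
      have hlast : dx d t (n - 1) = -d := neg_eq_iff_eq_neg.1 hback
      have hn2 : 2 ≤ n := by
        by_contra hcon
        have h1 : n = 1 := by omega
        rw [h1] at hlast
        have h2 : d = -d := hlast
        have h3 := congrArg (fun p => ip p d) h2
        simp only [ip_neg_left, ip_self_dir hd] at h3
        omega
      exact ⟨hn2, hlast, caseA3 hd hn2 hlen h.inj hnn hlast hn0 hR1 hR _⟩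
    · left
      have hpos : ∀ i, 1 ≤ i → i ≤ n → 0 < ip (vx oo d t i) d := by
        intro i h1 h2
        rcases lt_or_eq_of_le (hnn i h2) with h3 | h3
        · exact h3
        · exfalso
          have h4 : ip (vx oo d t i) d = ip (vx oo d t 0) d := by rw [← h3, hL0]
          rcases endA hd hd (low_of_eq hlow0 h2 h4) ((class_eq hd hd h4).trans hA0) with h5 | h5
          · omega
          · rw [h5] at h3
            exact hn0 h3.symm
      have hm : t ∈ HPw := by
        refine hp_of hd (w := oo) (V := fun k => vx oo d t (1 + k)) (N := n - 1) (fun k => k) ?_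
          (fun k l hkl _ => by omega) ?_ ?_
        · intro k hk
          exact ⟨rfl, by omega⟩
        · intro i k hi hk hik
          exact vx_ne hlen h.inj _ _ (by omega) (by omega) (by omega)
        · intro i hi
          rw [ip_oo]
          exact hpos _ (by omega) (by omega)
      obtain ⟨i, hi, hiR⟩ := hR
      refine hpR_of hd (w := oo) hm (i := i) (by omega) ?_
      rw [ip_oo]
      omega
  · -- only the last vertex is at the lowest level
    right
    left
    have hqn : q = n := by
      rcases endA hd he h hA with h1 | h1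
      · rw [h1] at h0
        exact absurd rfl h0
      · exact h1
    subst hqn
    have hback := backA hd he h hA hn
    have hL0' := h.low 0 (by omega)
    have hpos : ∀ i, i < q → ip (vx oo d t q) e < ip (vx oo d t i) e := by
      intro i hi
      rcases lt_or_eq_of_le (h.low i hi.le) with h3 | h3
      · exact h3
      · exfalso
        rcases endA hd he (low_of_eq h hi.le h3.symm) ((class_eq hd he h3.symm).trans hA) with h5 | h5
        · rw [h5] at h3
          exact h0 h3.symm
        · omega
    have hvk : ∀ k, k ≤ q → vx (vx oo d t q) e (rev (t.take (q - 1)) ++ [tf t (q - 1)]) k = vx oo d t (q - k) := by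
      intro k hk
      have := rev_take_vx (d := d) (t := t) hn (by omega) (tf t (q - 1)) hk
      rwa [hback] at this
    have hsl : (rev (t.take (q - 1)) ++ [tf t (q - 1)]).length = q := by
      rw [List.length_append, rev_length, List.length_take, List.length_singleton]
      omega
    have hm : rev (t.take (q - 1)) ++ [tf t (q - 1)] ∈ HPw := by
      refine hp_of he (w := vx oo d t q) (V := vx oo d t) (N := q - 1) (fun k => q - (1 + k)) ?_ ?_ ?_ ?_
      · intro k hk
        rw [hsl] at hk
        exact ⟨hvk _ hk, by omega⟩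
      · intro k l hkl hl
        rw [hsl] at hl
        show q - (1 + k) ≠ q - (1 + l)
        omega
      · intro i k hi hk hik
        exact vx_ne hlen h.inj _ _ (by omega) (by omega) hik
      · intro i hi
        exact hpos i (by omega)
    obtain ⟨i, hi, hiR⟩ := hR
    refine hpR_of he (w := vx oo d t q) hm (i := q - i) (by rw [hsl]; omega) ?_
    rw [hvk _ (by omega), show q - (q - i) = i by omega]
    omega

end

end LowCutAux

open LowCutAux

theorem low_cut {x : ℝ} (hx : 0 < x) {d e : Pt} (hd : d ∈ dirs) (he : e ∈ dirs) {n R : ℕ} (hn : 1 ≤ n)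
    (hR : 1 ≤ R) :
    gX x (FW d e n (3 * R)) ≤ (3 + ENNReal.ofReal (2 / x ^ 2) * gX x HPw) * gX x (HPR R) := by
  classical
  obtain ⟨A2, hA2⟩ : ∃ A : Set (List Bool), A = {t | t.length = n ∧
      rev (t.take (n - 1)) ++ [tf t (n - 1)] ∈ HPR R} := ⟨_, rfl⟩
  obtain ⟨A3, hA3⟩ : ∃ A : Set (List Bool), A = {t | t.length = n ∧ 2 ≤ n ∧ dx d t (n - 1) = -e ∧
      [tf t (n - 1), !(tf t (n - 1))] ++ t.take (n - 2) ∈ HPR R} := ⟨_, rfl⟩
  obtain ⟨B1, hB1⟩ : ∃ B : Set (List Bool), B = {t | t.length = n ∧ ∃ p : List Bool × List Bool,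
      p.1 ∈ HPw ∧ p.2 ∈ HPR R ∧ p.1.length + p.2.length = n + 2 ∧ dec p.1 p.2 = t} := ⟨_, rfl⟩
  obtain ⟨B2, hB2⟩ : ∃ B : Set (List Bool), B = {t | t.length = n ∧ ∃ p : List Bool × List Bool,
      p.1 ∈ HPR R ∧ p.2 ∈ HPw ∧ p.1.length + p.2.length = n + 2 ∧ dec p.1 p.2 = t} := ⟨_, rfl⟩
  have hsub : FW d e n (3 * R) ⊆ (HPR R ∪ (A2 ∪ A3)) ∪ (B1 ∪ B2) := by
    rintro t ⟨hlen, hinj, hlev⟩
    obtain ⟨q, hq, hmin⟩ := Finset.exists_min_image (Finset.range (n + 1)) (fun i => ip (vx oo d t i) e)
      ⟨0, by rw [Finset.mem_range]; omega⟩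
    rw [Finset.mem_range] at hq
    have hL : Low d e t n q := ⟨hlen, hinj, by omega, fun i hi => hmin i (by rw [Finset.mem_range]; omega)⟩
    rcases cl_dir_cases e he _ (dx_mem hd t q) with hA | hB
    · left
      rcases caseA hd he hn hR hL hA hlev with h1 | h1 | h1
      · exact Or.inl h1
      · right
        left
        rw [hA2]
        exact ⟨hlen, h1⟩
      · right
        right
        rw [hA3]
        exact ⟨hlen, h1⟩
    · right
      obtain ⟨p, h1, h2, h3, h4, h5⟩ := caseB hd he hn hL hB hlev
      rcases h3 with h3 | h3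
      · right
        rw [hB2]
        exact ⟨hlen, p, h3, h2, h4, h5⟩
      · left
        rw [hB1]
        exact ⟨hlen, p, h1, h3, h4, h5⟩
  have kA2 : gX x A2 ≤ gX x (HPR R) := by
    have := gX_le_of_inj (x := x) (y := x) (P := A2) (Q := HPR R)
      (fun t => rev (t.take (n - 1)) ++ [tf t (n - 1)]) (by
        intro t ht
        rw [hA2] at ht
        exact ht.2) (by
        intro s hs t ht hst
        rw [hA2] at hs ht
        have h1 := List.append_inj' hst rfl
        have h2 : s.take (n - 1) = t.take (n - 1) := by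
          rw [← rev_rev (s.take (n - 1)), h1.1, rev_rev]
        have h3 : tf s (n - 1) = tf t (n - 1) := by
          have := h1.2
          simpa using this
        rw [take_split (t := s) (i := n - 1) (by rw [hs.1]; omega),
          take_split (t := t) (i := n - 1) (by rw [ht.1]; omega), h2, h3,
          List.drop_eq_nil_of_le (by rw [hs.1]; omega), List.drop_eq_nil_of_le (by rw [ht.1]; omega)]) 1 (by
        intro t ht
        rw [hA2] at ht
        rw [one_mul]
        refine (wX_congr x ?_).le
        rw [List.length_append, rev_length, List.length_take, List.length_singleton, ht.1]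
        omega)
    rwa [one_mul] at this
  have kA3 : gX x A3 ≤ gX x (HPR R) := by
    have := gX_le_of_inj (x := x) (y := x) (P := A3) (Q := HPR R)
      (fun t => [tf t (n - 1), !(tf t (n - 1))] ++ t.take (n - 2)) (by
        intro t ht
        rw [hA3] at ht
        exact ht.2.2.2) (by
        intro s hs t ht hst
        rw [hA3] at hs ht
        obtain ⟨hs1, hn2, hs2, -⟩ := hs
        obtain ⟨ht1, -, ht2, -⟩ := ht
        have h1 := List.append_inj hst rfl
        have h2 : s.take (n - 2) = t.take (n - 2) := h1.2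
        have h3 : tf s (n - 1) = tf t (n - 1) := by
          have := h1.1
          simp only [List.cons.injEq] at this
          exact this.1
        have hsp : ∀ r : List Bool, r = r.take (n - 2) ++ r.drop (n - 2) :=
          fun r => (List.take_append_drop _ _).symm
        have htl : ∀ r : List Bool, r.length = n → (r.take (n - 2)).length = n - 2 := by
          intro r hr
          rw [List.length_take]
          omega
        have h4 : dx d s (n - 2) = dx d t (n - 2) := by
          rw [hsp s, hsp t, dx_append (by rw [htl s hs1]), dx_append (by rw [htl t ht1]), h2]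
        have h5 : tf s (n - 2) = tf t (n - 2) := by
          have e1 := dx_succ d s (n - 2)
          have e2 := dx_succ d t (n - 2)
          rw [show n - 2 + 1 = n - 1 by omega] at e1 e2
          rw [hs2] at e1
          rw [ht2] at e2
          rw [e1] at e2
          rw [h4] at e2
          exact turn_inj _ (dx_mem hd t (n - 2)) _ _ e2
        apply tf_ext (by rw [hs1, ht1])
        intro i hi
        rw [hs1] at hi
        rcases Nat.lt_or_ge i (n - 2) with h6 | h6
        · rw [hsp s, hsp t, tf_append_left (by rw [htl s hs1]; exact h6),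
            tf_append_left (by rw [htl t ht1]; exact h6), h2]
        · have h7 : i = n - 2 ∨ i = n - 1 := by omega
          rcases h7 with h7 | h7
          · rw [h7, h5]
          · rw [h7, h3]) 1 (by
        intro t ht
        rw [hA3] at ht
        rw [one_mul]
        refine (wX_congr x ?_).le
        rw [List.length_append, List.length_take, ht.1]
        show n = 2 + _
        have := ht.2.1
        omega)
    rwa [one_mul] at this
  have hwt : ∀ a b t : List Bool, t.length = n → a.length + b.length = n + 2 →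
      wX x t ≤ ENNReal.ofReal (1 / x ^ 2) * (wX x a * wX x b) := by
    intro a b t ht hab
    rw [← wX_append hx.le]
    unfold wX
    rw [List.length_append, hab, ht, ← ENNReal.ofReal_mul (by positivity)]
    apply le_of_eq
    congr 1
    rw [pow_add]
    field_simp
  have kB1 : gX x B1 ≤ ENNReal.ofReal (1 / x ^ 2) * (gX x HPw * gX x (HPR R)) := by
    have hex : ∀ t ∈ B1, t.length = n ∧ ∃ p : List Bool × List Bool,
      p.1 ∈ HPw ∧ p.2 ∈ HPR R ∧ p.1.length + p.2.length = n + 2 ∧ dec p.1 p.2 = t := by
      intro t ht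
      rw [hB1] at ht
      exact ht
    choose! hl p hp1 hp2 hp3 hp4 using hex
    exact gX_le_pair _ (fun t => (p t).1) (fun t => (p t).2) hp1 hp2 (by
      intro s hs t ht h1 h2
      have h1' : (p s).1 = (p t).1 := h1
      have h2' : (p s).2 = (p t).2 := h2
      rw [← hp4 s hs, ← hp4 t ht, h1', h2']) (fun t ht => hwt _ _ t (hl t ht) (hp3 t ht))
  have kB2 : gX x B2 ≤ ENNReal.ofReal (1 / x ^ 2) * (gX x (HPR R) * gX x HPw) := by
    have hex : ∀ t ∈ B2, t.length = n ∧ ∃ p : List Bool × List Bool,
      p.1 ∈ HPR R ∧ p.2 ∈ HPw ∧ p.1.length + p.2.length = n + 2 ∧ dec p.1 p.2 = t := by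
      intro t ht
      rw [hB2] at ht
      exact ht
    choose! hl p hp1 hp2 hp3 hp4 using hex
    exact gX_le_pair _ (fun t => (p t).1) (fun t => (p t).2) hp1 hp2 (by
      intro s hs t ht h1 h2
      have h1' : (p s).1 = (p t).1 := h1
      have h2' : (p s).2 = (p t).2 := h2
      rw [← hp4 s hs, ← hp4 t ht, h1', h2']) (fun t ht => hwt _ _ t (hl t ht) (hp3 t ht))
  have h2c : ENNReal.ofReal (2 / x ^ 2) = 2 * ENNReal.ofReal (1 / x ^ 2) := by
    rw [show (2 : ℝ) / x ^ 2 = 2 * (1 / x ^ 2) by ring, ENNReal.ofReal_mul (by norm_num)]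
    congr 1
    exact ENNReal.ofReal_ofNat 2
  calc gX x (FW d e n (3 * R)) ≤ gX x ((HPR R ∪ (A2 ∪ A3)) ∪ (B1 ∪ B2)) := gX_mono x hsub
    _ ≤ gX x (HPR R ∪ (A2 ∪ A3)) + gX x (B1 ∪ B2) := gX_union_le _ _ _
    _ ≤ (gX x (HPR R) + (gX x A2 + gX x A3)) + (gX x B1 + gX x B2) := by
        gcongr
        · refine (gX_union_le _ _ _).trans ?_
          gcongr
          exact gX_union_le _ _ _
        · exact gX_union_le _ _ _
    _ ≤ (gX x (HPR R) + (gX x (HPR R) + gX x (HPR R))) +
        (ENNReal.ofReal (1 / x ^ 2) * (gX x HPw * gX x (HPR R)) +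
          ENNReal.ofReal (1 / x ^ 2) * (gX x (HPR R) * gX x HPw)) := by
        gcongr
    _ = (3 + ENNReal.ofReal (2 / x ^ 2) * gX x HPw) * gX x (HPR R) := by
        rw [h2c]
        ring

end HexObs
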