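import Pool.Agent.TST.HWNum
import Pool.Agent.TST.LowCut
import Pool.Agent.TST.CardLow
import Pool.Agent.TST.EncW

/-!
TST FinA: Rate implies T*.
tail_bound: for x = xc exp(-lam), 0 <= lam <= 1/10 (so x >= 1/3), S as in HWNum:
number of walks with displacement >= 3R  <=  C exp (lam n + 16 S) (sum_(t >= R) A_t) xc^(-n)
(low_cut, HPw_le, HPR_tail, gX_length, enc_upper, enc_lower, NW_lower).
tstar: n large, s = ceil (n^(1/8)), lam = s^(-(1+a)), c = a / 20, R = floor (n^(1-c) / 3):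
S <= 3 s, sum_(t >= R) A_t <= exp (-R/s) / (1 - exp (-1/s)) <= 2 s exp (-R/s); lam n <= n^(1-(1+a)/8),
R / s >= n^(1-c-1/8) / 8; n^(7/8-c) beats n^(7/8-a/8), n^(1/8) and n^(1/2).
-/

set_option autoImplicit false
open scoped Classical

namespace HexObs

open Complex Finset ENNReal

lemma finA1_xc_ge : 1 / 2 ≤ xc := by
  unfold xc
  have h1 : Real.cos (Real.pi / 8) ≤ 1 := Real.cos_le_one _
  have h2 := cos_pos
  rw [div_le_div_iff₀ (by norm_num) (by positivity)]
  linarith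

theorem tail_bound : ∃ C : ℝ, 0 < C ∧ ∀ (f : ℕ → Fin 3 → ℂ), (∀ i a, f i a =
    (-1 : ℂ) ^ i * Complex.exp (2 * (Real.pi : ℂ) * Complex.I * ((a : ℕ) : ℂ) / 3)) →
    ∀ (lam S B : ℝ) (n R : ℕ), 0 ≤ lam → lam ≤ 1 / 10 → 0 ≤ S → 0 ≤ B → 1 ≤ n → 1 ≤ R →
    (∑' m : ℕ, AX (xc * Real.exp (-lam)) (m + 1) ≤ ENNReal.ofReal S) →
    (∑' j : ℕ, AX (xc * Real.exp (-lam)) (R + j) ≤ ENNReal.ofReal B) →
    (((SawNu.saw f n).filter (fun s => ∃ j : Fin (n + 1), 3 * (R : ℝ) ≤ ‖SawNu.pos f s j‖)).card : ℝ) ≤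
      C * Real.exp (lam * n + 16 * S) * B * ((SawNu.saw f n).card : ℝ) := by
  refine ⟨1041120, by norm_num, ?_⟩
  intro f hf lam S B n R hl hl1 hS hB hn hR hsum htail
  set x : ℝ := xc * Real.exp (-lam) with hxdef
  have hx0 : 0 < x := mul_pos xc_pos (Real.exp_pos _)
  have hx1 : x ≤ xc := by
    have h1 : Real.exp (-lam) ≤ 1 := Real.exp_le_one_iff.2 (by linarith)
    have h2 := mul_le_mul_of_nonneg_left h1 xc_pos.le
    rwa [mul_one] at h2
  have hx3 : 1 / 3 ≤ x := by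
    have h1 := finA1_xc_ge
    have h2 : 9 / 10 ≤ Real.exp (-lam) := by
      have := Real.add_one_le_exp (-lam)
      linarith
    have h3 : (1 / 2 : ℝ) * (9 / 10) ≤ xc * Real.exp (-lam) :=
      mul_le_mul h1 h2 (by norm_num) xc_pos.le
    rw [hxdef]
    linarith
  -- one pair of directions
  have hone : ∀ d ∈ dirs, ∀ e ∈ dirs, ((FW d e n (3 * R)).ncard : ℝ) ≤
      14460 * Real.exp (16 * S) * B / x ^ n := by
    intro d hd e he
    have h1 := low_cut hx0 hd he hn hR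
    rw [gX_length n _ (fun t ht => ht.1)] at h1
    have h2 := HPw_le hx3 hx1 hS hsum
    have h3 := (HPR_tail hx3 hx1 hS hsum hR).trans (mul_le_mul_right htail _)
    have h4 : (3 : ℝ≥0∞) + ENNReal.ofReal (2 / x ^ 2) * gX x HPw ≤
        ENNReal.ofReal (723 * Real.exp (8 * S)) := by
      have h5 : 2 / x ^ 2 ≤ 18 := by
        rw [div_le_iff₀ (by positivity)]
        nlinarith
      calc (3 : ℝ≥0∞) + ENNReal.ofReal (2 / x ^ 2) * gX x HPw
          ≤ ENNReal.ofReal 3 + ENNReal.ofReal 18 * ENNReal.ofReal (40 * Real.exp (8 * S)) := by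
            refine add_le_add ?_ (mul_le_mul' (ENNReal.ofReal_le_ofReal h5) h2)
            simp
        _ = ENNReal.ofReal (3 + 18 * (40 * Real.exp (8 * S))) := by
            rw [← ENNReal.ofReal_mul (by norm_num), ← ENNReal.ofReal_add (by norm_num) (by positivity)]
        _ ≤ ENNReal.ofReal (723 * Real.exp (8 * S)) := by
            apply ENNReal.ofReal_le_ofReal
            have h6 : 1 ≤ Real.exp (8 * S) := Real.one_le_exp (by positivity)
            linarith
    have h5 := h1.trans (mul_le_mul' h4 h3)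
    rw [← ENNReal.ofReal_mul (by positivity), ← ENNReal.ofReal_mul (by positivity),
      ← ENNReal.ofReal_natCast, ← ENNReal.ofReal_mul (by positivity),
      ENNReal.ofReal_le_ofReal_iff (by positivity)] at h5
    rw [le_div_iff₀ (by positivity)]
    have h6 : 723 * Real.exp (8 * S) * (20 * Real.exp (7 * S) * B) ≤
        14460 * Real.exp (16 * S) * B := by
      have h7 : Real.exp (8 * S) * Real.exp (7 * S) ≤ Real.exp (16 * S) := by
        rw [← Real.exp_add]
        apply Real.exp_le_exp.2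
        linarith
      have h8 := mul_le_mul_of_nonneg_right h7 hB
      nlinarith
    linarith
  have hcast : (((3 * R : ℕ) : ℤ) : ℝ) = 3 * (R : ℝ) := by push_cast; ring
  have hup := enc_upper hf hn ((3 * R : ℕ) : ℤ)
  rw [hcast] at hup
  have hup' : (((SawNu.saw f n).filter (fun s => ∃ j : Fin (n + 1),
      3 * (R : ℝ) ≤ ‖SawNu.pos f s j‖)).card : ℝ) ≤
      ∑ d ∈ dirs, ∑ e ∈ dirs, ((FW d e n (3 * R)).ncard : ℝ) := by
    have h1 : (((3 * R : ℕ) : ℤ)) = 3 * (R : ℤ) := by push_cast; ring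
    rw [h1] at hup
    exact_mod_cast hup
  have hsum2 : ∑ d ∈ dirs, ∑ e ∈ dirs, ((FW d e n (3 * R)).ncard : ℝ) ≤
      36 * (14460 * Real.exp (16 * S) * B / x ^ n) := by
    calc ∑ d ∈ dirs, ∑ e ∈ dirs, ((FW d e n (3 * R)).ncard : ℝ)
        ≤ ∑ d ∈ dirs, ∑ e ∈ dirs, 14460 * Real.exp (16 * S) * B / x ^ n :=
          Finset.sum_le_sum fun d hd => Finset.sum_le_sum fun e he => hone d hd e he
      _ = 36 * (14460 * Real.exp (16 * S) * B / x ^ n) := by
          rw [Finset.sum_const, Finset.sum_const, show dirs.card = 6 by decide, nsmul_eq_mul,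
            nsmul_eq_mul]
          push_cast
          ring
  have hlow : 1 ≤ xc ^ n * (2 * ((SawNu.saw f n).card : ℝ)) := by
    have h1 := NW_lower n
    have h2 : (NW n : ℝ) ≤ 2 * ((SawNu.saw f n).card : ℝ) := by exact_mod_cast enc_lower hf hn
    have h3 := mul_le_mul_of_nonneg_left h2 (pow_nonneg xc_pos.le n)
    linarith
  have hxn : x ^ n = xc ^ n * Real.exp (-(lam * n)) := by
    rw [hxdef, mul_pow, ← Real.exp_nat_mul]
    congr 2
    ring
  refine hup'.trans (hsum2.trans ?_)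
  have hxc : 0 < xc ^ n := pow_pos xc_pos n
  have e1 : 36 * (14460 * Real.exp (16 * S) * B / x ^ n) =
      520560 * (Real.exp (lam * n + 16 * S) * B) * (1 / xc ^ n) := by
    rw [hxn, Real.exp_add, Real.exp_neg]
    have h1 : Real.exp (lam * n) ≠ 0 := (Real.exp_pos _).ne'
    field_simp
    ring
  rw [e1]
  have h2 : 1 / xc ^ n ≤ 2 * ((SawNu.saw f n).card : ℝ) := by
    rw [div_le_iff₀ hxc]
    linarith
  have h3 : 0 ≤ Real.exp (lam * n + 16 * S) * B := by positivity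
  nlinarith [mul_le_mul_of_nonneg_left h2 h3]

/-- a smaller power is eventually a small part of a larger one -/
lemma finA2_pow {p q ε : ℝ} (hpq : p < q) (hε : 0 < ε) (C : ℝ) :
    ∀ᶠ n : ℕ in Filter.atTop, C * (n : ℝ) ^ p ≤ ε * (n : ℝ) ^ q := by
  have h1 : Filter.Tendsto (fun x : ℝ => x ^ (-(q - p))) Filter.atTop (nhds 0) :=
    tendsto_rpow_neg_atTop (by linarith)
  have h2 : Filter.Tendsto (fun n : ℕ => |C| * (n : ℝ) ^ (-(q - p))) Filter.atTop (nhds (|C| * 0)) :=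
    (h1.comp tendsto_natCast_atTop_atTop).const_mul _
  rw [mul_zero] at h2
  filter_upwards [h2.eventually_lt_const hε, Filter.eventually_ge_atTop 1] with n hn hn1
  have hn0 : (0 : ℝ) < n := by exact_mod_cast hn1
  have e : (n : ℝ) ^ p = (n : ℝ) ^ (-(q - p)) * (n : ℝ) ^ q := by
    rw [← Real.rpow_add hn0]
    congr 1
    ring
  have h3 : 0 ≤ (n : ℝ) ^ q := Real.rpow_nonneg hn0.le _
  have h4 : 0 ≤ (n : ℝ) ^ (-(q - p)) := Real.rpow_nonneg hn0.le _
  calc C * (n : ℝ) ^ p ≤ |C| * (n : ℝ) ^ p :=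
        mul_le_mul_of_nonneg_right (le_abs_self C) (Real.rpow_nonneg hn0.le _)
    _ = (|C| * (n : ℝ) ^ (-(q - p))) * (n : ℝ) ^ q := by rw [e]; ring
    _ ≤ ε * (n : ℝ) ^ q := mul_le_mul_of_nonneg_right hn.le h3

/-- geometric sums of exponentials -/
lemma finA2_geom {s : ℝ} (hs : 1 ≤ s) (c R : ℝ) (hc : 0 ≤ c) :
    ∑' j : ℕ, ENNReal.ofReal (c * Real.exp (-((R + j) / s))) ≤
      ENNReal.ofReal (c * ((1 + s) * Real.exp (-(R / s)))) := by
  have hs0 : 0 < s := by linarith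
  set q : ℝ := Real.exp (-(1 / s)) with hq
  have hq0 : 0 ≤ q := (Real.exp_pos _).le
  have hq1 : q < 1 := by
    rw [hq, Real.exp_lt_one_iff]
    have : 0 < 1 / s := by positivity
    linarith
  have e : ∀ j : ℕ, c * Real.exp (-((R + j) / s)) = (c * Real.exp (-(R / s))) * q ^ j := by
    intro j
    rw [hq, ← Real.exp_nat_mul, mul_assoc, ← Real.exp_add]
    congr 2
    field_simp
    ring
  have hsum : HasSum (fun j : ℕ => (c * Real.exp (-(R / s))) * q ^ j) ((c * Real.exp (-(R / s))) * (1 - q)⁻¹) :=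
    (hasSum_geometric_of_lt_one hq0 hq1).mul_left _
  have h1 : ∑' j : ℕ, ENNReal.ofReal (c * Real.exp (-((R + j) / s))) =
      ENNReal.ofReal ((c * Real.exp (-(R / s))) * (1 - q)⁻¹) := by
    rw [← hsum.tsum_eq, ENNReal.ofReal_tsum_of_nonneg _ hsum.summable]
    · exact tsum_congr fun j => by rw [e j]
    · intro j
      exact mul_nonneg (mul_nonneg hc (Real.exp_pos _).le) (pow_nonneg hq0 j)
  rw [h1]
  apply ENNReal.ofReal_le_ofReal
  have h2 : (1 - q)⁻¹ ≤ 1 + s := by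
    have h3 : 1 - q ≥ 1 / (1 + s) := by
      have h4 : q ≤ 1 / (1 + 1 / s) := by
        rw [hq, Real.exp_neg, ← one_div]
        apply one_div_le_one_div_of_le (by positivity)
        have := Real.add_one_le_exp (1 / s)
        linarith
      have h5 : 1 / (1 + 1 / s) = 1 - 1 / (1 + s) := by
        field_simp
        ring
      linarith
    have h6 : (0 : ℝ) < 1 / (1 + s) := by positivity
    calc (1 - q)⁻¹ ≤ (1 / (1 + s))⁻¹ := inv_anti₀ h6 h3
      _ = 1 + s := by rw [one_div, inv_inv]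
  calc c * Real.exp (-(R / s)) * (1 - q)⁻¹ ≤ c * Real.exp (-(R / s)) * (1 + s) :=
        mul_le_mul_of_nonneg_left h2 (mul_nonneg hc (Real.exp_pos _).le)
    _ = c * ((1 + s) * Real.exp (-(R / s))) := by ring

theorem tail_of_rate (h : Rate) : ∃ c K : ℝ, 0 < c ∧ c < 1 ∧ 0 < K ∧ ∀ (f : ℕ → Fin 3 → ℂ), (∀ i a, f i a =
    (-1 : ℂ) ^ i * Complex.exp (2 * (Real.pi : ℂ) * Complex.I * ((a : ℕ) : ℂ) / 3)) →
    ∀ n : ℕ, 1 ≤ n →
    (((SawNu.saw f n).filter
        (fun s => ∃ j : Fin (n + 1), (n : ℝ) ^ (1 - c) ≤ ‖SawNu.pos f s j‖)).card : ℝ) ≤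
      K * Real.exp (-((n : ℝ) ^ (3 / 4 : ℝ))) * ((SawNu.saw f n).card : ℝ) := by
  obtain ⟨C, hC, hT⟩ := tail_bound
  obtain ⟨a, ha0, ha1, s0, hs0, hrate⟩ := h
  set c : ℝ := a / 20 with hc
  -- the numerical conditions for large n
  have key : ∀ᶠ n : ℕ in Filter.atTop,
      (Real.log C * (n : ℝ) ^ (0 : ℝ) ≤ 1 / 48 * (n : ℝ) ^ (7 / 8 - c)) ∧
      (1 * (n : ℝ) ^ (7 / 8 - a / 8) ≤ 1 / 48 * (n : ℝ) ^ (7 / 8 - c)) ∧
      (98 * (n : ℝ) ^ (1 / 8 : ℝ) ≤ 1 / 48 * (n : ℝ) ^ (7 / 8 - c)) ∧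
      (1 * (n : ℝ) ^ (3 / 4 : ℝ) ≤ 1 / 48 * (n : ℝ) ^ (7 / 8 - c)) ∧
      (6 * (n : ℝ) ^ (0 : ℝ) ≤ 1 * (n : ℝ) ^ (1 - c)) ∧
      (12 * (n : ℝ) ^ (0 : ℝ) ≤ 1 * (n : ℝ) ^ (7 / 8 - c)) ∧
      ((10 + s0 : ℝ) * (n : ℝ) ^ (0 : ℝ) ≤ 1 * (n : ℝ) ^ (1 / 8 : ℝ)) ∧ 1 ≤ n := by
    have hc1 : c ≤ 1 / 20 := by rw [hc]; linarith
    have hc2 : 0 < c := by rw [hc]; linarith
    filter_upwards [finA2_pow (p := 0) (q := 7 / 8 - c) (ε := 1 / 48) (by linarith) (by norm_num) (Real.log C),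
      finA2_pow (p := 7 / 8 - a / 8) (q := 7 / 8 - c) (ε := 1 / 48) (by rw [hc]; linarith) (by norm_num) 1,
      finA2_pow (p := 1 / 8) (q := 7 / 8 - c) (ε := 1 / 48) (by linarith) (by norm_num) 98,
      finA2_pow (p := 3 / 4) (q := 7 / 8 - c) (ε := 1 / 48) (by linarith) (by norm_num) 1,
      finA2_pow (p := 0) (q := 1 - c) (ε := 1) (by linarith) (by norm_num) 6,
      finA2_pow (p := 0) (q := 7 / 8 - c) (ε := 1) (by linarith) (by norm_num) 12,
      finA2_pow (p := 0) (q := 1 / 8) (ε := 1) (by norm_num) (by norm_num) (10 + s0),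
      Filter.eventually_ge_atTop 1] with n h1 h2 h3 h4 h5 h6 h7 h8
    exact ⟨h1, h2, h3, h4, h5, h6, h7, h8⟩
  obtain ⟨n0, hn0⟩ := Filter.eventually_atTop.1 key
  have hc1 : c ≤ 1 / 20 := by rw [hc]; linarith
  have hc2 : 0 < c := by rw [hc]; linarith
  refine ⟨c, Real.exp ((n0 : ℝ) ^ (3 / 4 : ℝ)), hc2, by linarith, Real.exp_pos _, ?_⟩
  intro f hf n hn
  have hcard : (((SawNu.saw f n).filter
        (fun s => ∃ j : Fin (n + 1), (n : ℝ) ^ (1 - c) ≤ ‖SawNu.pos f s j‖)).card : ℝ) ≤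
        ((SawNu.saw f n).card : ℝ) := by
    exact_mod_cast Finset.card_filter_le _ _
  have hcard0 : (0 : ℝ) ≤ ((SawNu.saw f n).card : ℝ) := Nat.cast_nonneg _
  rcases Nat.lt_or_ge n n0 with hlt | hge
  · -- small n
    refine hcard.trans ?_
    have h1 : 1 ≤ Real.exp ((n0 : ℝ) ^ (3 / 4 : ℝ)) * Real.exp (-((n : ℝ) ^ (3 / 4 : ℝ))) := by
      rw [← Real.exp_add, Real.one_le_exp_iff]
      have h2 : (n : ℝ) ^ (3 / 4 : ℝ) ≤ (n0 : ℝ) ^ (3 / 4 : ℝ) :=
        Real.rpow_le_rpow (Nat.cast_nonneg _) (by exact_mod_cast hlt.le) (by norm_num)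
      linarith
    exact le_mul_of_one_le_left hcard0 h1
  · obtain ⟨h1, h2, h3, h4, h5, h6, h7, h8⟩ := hn0 n hge
    have hnpos : (0 : ℝ) < n := by exact_mod_cast hn
    rw [Real.rpow_zero, mul_one] at h1 h5 h6 h7
    rw [one_mul] at h2 h4 h5 h6 h7
    set y : ℝ := (n : ℝ) ^ (1 / 8 : ℝ) with hy
    set s : ℕ := ⌈y⌉₊ with hs
    have hs0' : (0 : ℝ) ≤ s0 := Nat.cast_nonneg _
    have hy10 : 10 ≤ y := by linarith
    have hys : y ≤ s := Nat.le_ceil y
    have hsy : (s : ℝ) ≤ 2 * y := by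
      have := Nat.ceil_lt_add_one (by linarith : 0 ≤ y)
      linarith
    have hs10 : (10 : ℝ) ≤ s := hy10.trans hys
    have hspos : (0 : ℝ) < s := by linarith
    have hss0 : s0 ≤ s := by
      have : (s0 : ℝ) ≤ s := by linarith
      exact_mod_cast this
    set lam : ℝ := (s : ℝ) ^ (-(1 + a)) with hlam
    set Z : ℝ := (n : ℝ) ^ (1 - c) with hZ
    set R : ℕ := ⌊Z / 3⌋₊ with hR
    have hZ0 : 0 ≤ Z := Real.rpow_nonneg hnpos.le _
    have hRle : 3 * (R : ℝ) ≤ Z := by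
      have := Nat.floor_le (by positivity : 0 ≤ Z / 3)
      rw [← hR] at this
      linarith
    have hRge : Z / 6 ≤ R := by
      have := Nat.lt_floor_add_one (Z / 3)
      rw [← hR] at this
      linarith
    -- R / s is large
    have hZy : Z = y * (n : ℝ) ^ (7 / 8 - c) := by
      rw [hZ, hy, ← Real.rpow_add hnpos]
      congr 1
      ring
    have hW0 : 0 ≤ (n : ℝ) ^ (7 / 8 - c) := Real.rpow_nonneg hnpos.le _
    have hRs : (n : ℝ) ^ (7 / 8 - c) / 12 ≤ R / s := by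
      rw [div_le_div_iff₀ (by norm_num) hspos]
      calc (n : ℝ) ^ (7 / 8 - c) * s ≤ (n : ℝ) ^ (7 / 8 - c) * (2 * y) :=
            mul_le_mul_of_nonneg_left hsy hW0
        _ = Z / 6 * 12 := by rw [hZy]; ring
        _ ≤ R * 12 := by linarith
    have hRs1 : (1 : ℝ) ≤ R / s := by linarith
    have hsR : s ≤ R := by
      rw [le_div_iff₀ hspos, one_mul] at hRs1
      exact_mod_cast hRs1
    have hR1 : 1 ≤ R := by
      have : 1 ≤ s := by
        have : (1 : ℝ) ≤ s := by linarith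
        exact_mod_cast this
      omega
    have hlam0 : 0 ≤ lam := Real.rpow_nonneg hspos.le _
    have hlam1 : lam ≤ 1 / 10 := by
      calc lam ≤ (s : ℝ) ^ (-1 : ℝ) := by
            rw [hlam]
            exact Real.rpow_le_rpow_of_exponent_le (by linarith) (by linarith)
        _ = 1 / s := by rw [Real.rpow_neg_one, one_div]
        _ ≤ 1 / 10 := one_div_le_one_div_of_le (by norm_num) hs10
    have hx0 : 0 ≤ xc * Real.exp (-lam) := mul_nonneg xc_pos.le (Real.exp_pos _).le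
    have hxc : xc * Real.exp (-lam) ≤ xc := by
      apply mul_le_of_le_one_right xc_pos.le
      rw [Real.exp_le_one_iff]
      linarith
    -- the sum of all bridges
    have hSsum : ∑' m : ℕ, AX (xc * Real.exp (-lam)) (m + 1) ≤ ENNReal.ofReal (3 * s) := by
      have hterm : ∀ m : ℕ, AX (xc * Real.exp (-lam)) (m + 1) ≤
          ENNReal.ofReal (3 * Real.exp (-(((1 : ℝ) + m) / s))) := by
        intro m
        rcases Nat.lt_or_ge (m + 1) s with hm | hm
        · refine (AX_le_one hx0 hxc (by omega)).trans ?_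
          rw [← ENNReal.ofReal_one]
          apply ENNReal.ofReal_le_ofReal
          have h10 : (1 + (m : ℝ)) / s ≤ 1 := by
            rw [div_le_one hspos]
            have : ((m + 1 : ℕ) : ℝ) ≤ s := by exact_mod_cast hm.le
            push_cast at this
            linarith
          have h11 : Real.exp (-1) ≤ Real.exp (-((1 + (m : ℝ)) / s)) := Real.exp_le_exp.2 (by linarith)
          have h12 : 1 / 3 ≤ Real.exp (-1) := by
            rw [Real.exp_neg, ← one_div]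
            apply one_div_le_one_div_of_le (Real.exp_pos _)
            have := Real.exp_one_lt_d9
            linarith
          linarith
        · have h10 := hrate s (m + 1) hss0 hm
          refine h10.trans (ENNReal.ofReal_le_ofReal ?_)
          have e1 : ((m + 1 : ℕ) : ℝ) = 1 + m := by push_cast; ring
          rw [e1]
          have := (Real.exp_pos (-((1 + (m : ℝ)) / s))).le
          linarith
      calc ∑' m : ℕ, AX (xc * Real.exp (-lam)) (m + 1)
          ≤ ∑' m : ℕ, ENNReal.ofReal (3 * Real.exp (-(((1 : ℝ) + m) / s))) := ENNReal.tsum_le_tsum hterm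
        _ ≤ ENNReal.ofReal (3 * s) := ?_
      -- direct estimate: the first term is q / (1 - q) <= s
      have hg := finA2_geom (s := (s : ℝ)) (by linarith) 3 1 (by norm_num)
      refine hg.trans (ENNReal.ofReal_le_ofReal ?_)
      have h10 : (1 + (s : ℝ)) * Real.exp (-(1 / s)) ≤ s := by
        have h11 := Real.add_one_le_exp (1 / (s : ℝ))
        have h12 : Real.exp (-(1 / (s : ℝ))) ≤ s / (1 + s) := by
          rw [Real.exp_neg, ← one_div, div_le_div_iff₀ (Real.exp_pos _) (by linarith)]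
          have h13 : (s : ℝ) * (1 / s + 1) ≤ s * Real.exp (1 / s) := mul_le_mul_of_nonneg_left h11 hspos.le
          have h14 : (s : ℝ) * (1 / s + 1) = 1 + s := by field_simp
          linarith
        calc (1 + (s : ℝ)) * Real.exp (-(1 / s)) ≤ (1 + s) * (s / (1 + s)) :=
              mul_le_mul_of_nonneg_left h12 (by linarith)
          _ = s := by field_simp
      linarith
    have hBsum : ∑' j : ℕ, AX (xc * Real.exp (-lam)) (R + j) ≤
        ENNReal.ofReal ((1 + s) * Real.exp (-((R : ℝ) / s))) := by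
      calc ∑' j : ℕ, AX (xc * Real.exp (-lam)) (R + j)
          ≤ ∑' j : ℕ, ENNReal.ofReal (1 * Real.exp (-(((R : ℝ) + j) / s))) := by
            apply ENNReal.tsum_le_tsum
            intro j
            have h10 := hrate s (R + j) hss0 (by omega)
            refine h10.trans (le_of_eq ?_)
            push_cast
            rw [one_mul]
        _ ≤ ENNReal.ofReal (1 * ((1 + s) * Real.exp (-((R : ℝ) / s)))) :=
            finA2_geom (by linarith) 1 R (by norm_num)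
        _ = _ := by rw [one_mul]
    have hmain := hT f hf lam (3 * s) ((1 + s) * Real.exp (-((R : ℝ) / s))) n R hlam0 hlam1
      (by positivity) (by positivity) hn hR1 hSsum hBsum
    -- the filter is smaller
    have hsubset : (((SawNu.saw f n).filter
        (fun s => ∃ j : Fin (n + 1), Z ≤ ‖SawNu.pos f s j‖)).card : ℝ) ≤
        (((SawNu.saw f n).filter (fun s => ∃ j : Fin (n + 1), 3 * (R : ℝ) ≤ ‖SawNu.pos f s j‖)).card : ℝ) := by
      have : ((SawNu.saw f n).filter (fun s => ∃ j : Fin (n + 1), Z ≤ ‖SawNu.pos f s j‖)).card ≤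
          ((SawNu.saw f n).filter (fun s => ∃ j : Fin (n + 1), 3 * (R : ℝ) ≤ ‖SawNu.pos f s j‖)).card := by
        apply Finset.card_le_card
        intro t ht
        rw [Finset.mem_filter] at ht ⊢
        obtain ⟨ht1, j, hj⟩ := ht
        exact ⟨ht1, j, hRle.trans hj⟩
      exact_mod_cast this
    refine hsubset.trans (hmain.trans ?_)
    apply mul_le_mul_of_nonneg_right _ hcard0
    -- the numbers
    have hlamn : lam * n ≤ (n : ℝ) ^ (7 / 8 - a / 8) := by
      have h10 : lam ≤ y ^ (-(1 + a)) := by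
        rw [hlam]
        exact Real.rpow_le_rpow_of_nonpos (by linarith) hys (by linarith)
      have h11 : y ^ (-(1 + a)) = (n : ℝ) ^ (-(1 + a) / 8) := by
        rw [hy, ← Real.rpow_mul hnpos.le]
        congr 1
        ring
      calc lam * n ≤ (n : ℝ) ^ (-(1 + a) / 8) * (n : ℝ) ^ (1 : ℝ) := by
            rw [Real.rpow_one, ← h11]
            exact mul_le_mul_of_nonneg_right h10 hnpos.le
        _ = (n : ℝ) ^ (7 / 8 - a / 8) := by
            rw [← Real.rpow_add hnpos]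
            congr 1
            ring
    have h1s : (1 : ℝ) + s ≤ Real.exp s := by
      have := Real.add_one_le_exp (s : ℝ)
      linarith
    have hCe : C = Real.exp (Real.log C) := (Real.exp_log hC).symm
    calc C * Real.exp (lam * n + 16 * (3 * s)) * ((1 + s) * Real.exp (-((R : ℝ) / s)))
        ≤ Real.exp (Real.log C) * Real.exp (lam * n + 16 * (3 * s)) * (Real.exp s * Real.exp (-((R : ℝ) / s))) := by
          rw [← hCe]
          apply mul_le_mul_of_nonneg_left _ (by positivity)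
          exact mul_le_mul_of_nonneg_right h1s (Real.exp_pos _).le
      _ = Real.exp (Real.log C + (lam * n + 16 * (3 * s)) + (s + -((R : ℝ) / s))) := by
          rw [Real.exp_add (Real.log C + (lam * n + 16 * (3 * s))), Real.exp_add (Real.log C),
            Real.exp_add (s : ℝ)]
      _ ≤ Real.exp (-((n : ℝ) ^ (3 / 4 : ℝ))) := by
          apply Real.exp_le_exp.2
          linarith
      _ ≤ Real.exp ((n0 : ℝ) ^ (3 / 4 : ℝ)) * Real.exp (-((n : ℝ) ^ (3 / 4 : ℝ))) := by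
          apply le_mul_of_one_le_left (Real.exp_pos _).le
          rw [Real.one_le_exp_iff]
          exact Real.rpow_nonneg (Nat.cast_nonneg _) _

private theorem finA3_norm (f : ℕ → Fin 3 → ℂ) (hf : ∀ i a, f i a =
    (-1 : ℂ) ^ i * Complex.exp (2 * (Real.pi : ℂ) * Complex.I * ((a : ℕ) : ℂ) / 3)) (i : ℕ)
    (a : Fin 3) : ‖f i a‖ = 1 := by
  rw [hf, norm_mul, norm_pow, norm_neg, norm_one, one_pow, one_mul]
  have h : (2 * (Real.pi : ℂ) * Complex.I * ((a : ℕ) : ℂ) / 3) =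
      ((2 * Real.pi * ((a : ℕ) : ℝ) / 3 : ℝ) : ℂ) * Complex.I := by
    push_cast
    ring
  rw [h, Complex.norm_exp_ofReal_mul_I]

private theorem finA3_pos (f : ℕ → Fin 3 → ℂ) (hf : ∀ i a, f i a =
    (-1 : ℂ) ^ i * Complex.exp (2 * (Real.pi : ℂ) * Complex.I * ((a : ℕ) : ℂ) / 3)) {n : ℕ}
    (s : Fin n → Fin 3) (j : ℕ) : ‖SawNu.pos f s j‖ ≤ n := by
  unfold SawNu.pos
  refine (norm_sum_le _ _).trans ?_
  have h1 : ∑ i ∈ Finset.univ.filter (fun i : Fin n => (i : ℕ) < j), ‖f (i : ℕ) (s i)‖ =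
      ∑ _i ∈ Finset.univ.filter (fun i : Fin n => (i : ℕ) < j), (1 : ℝ) :=
    Finset.sum_congr rfl (fun i _ => finA3_norm f hf (i : ℕ) (s i))
  rw [h1, Finset.sum_const, nsmul_eq_mul, mul_one]
  have h := Finset.card_filter_le (Finset.univ : Finset (Fin n)) (fun i : Fin n => (i : ℕ) < j)
  rw [Finset.card_univ, Fintype.card_fin] at h
  exact_mod_cast h

private theorem finA3_exp {n : ℕ} (hn : 1 ≤ n) :
    (n : ℝ) ^ 2 * Real.exp (-((n : ℝ) ^ (3 / 4 : ℝ))) ≤ 6 := by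
  have h1 : (1 : ℝ) ≤ n := by exact_mod_cast hn
  have h0 : (0 : ℝ) ≤ n := by linarith
  set y : ℝ := (n : ℝ) ^ (3 / 4 : ℝ) with hy
  have hy0 : 0 ≤ y := Real.rpow_nonneg h0 _
  have h2 : (n : ℝ) ^ 2 ≤ y ^ 3 := by
    have h3 : y ^ 3 = (n : ℝ) ^ (9 / 4 : ℝ) := by
      rw [hy, ← Real.rpow_natCast, ← Real.rpow_mul h0]
      norm_num
    rw [h3, ← Real.rpow_natCast]
    exact Real.rpow_le_rpow_of_exponent_le h1 (by norm_num)
  have h4 : y ^ 3 / (Nat.factorial 3 : ℝ) ≤ Real.exp y := Real.pow_div_factorial_le_exp y hy0 3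
  have h5 : (Nat.factorial 3 : ℝ) = 6 := by norm_num [Nat.factorial]
  rw [h5] at h4
  have h6 : y ^ 3 ≤ 6 * Real.exp y := by linarith
  rw [Real.exp_neg]
  have h7 := Real.exp_pos y
  rw [← div_eq_mul_inv, div_le_iff₀ h7]
  linarith

theorem mean_of_rate (h : Rate) : ∃ c K : ℝ, 0 < c ∧ 0 < K ∧ ∀ (f : ℕ → Fin 3 → ℂ), (∀ i a, f i a =
    (-1 : ℂ) ^ i * Complex.exp (2 * (Real.pi : ℂ) * Complex.I * ((a : ℕ) : ℂ) / 3)) →
    ∀ n : ℕ, 1 ≤ n →
    (∑ s ∈ SawNu.saw f n, ⨆ j : Fin (n + 1), ‖SawNu.pos f s j‖ ^ 2) / ((SawNu.saw f n).card : ℝ) ≤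
      K * (n : ℝ) ^ (2 - c) := by
  obtain ⟨c, K, hc0, hc1, hK, ht⟩ := tail_of_rate h
  refine ⟨2 * c, 1 + 6 * K, by linarith, by linarith, ?_⟩
  intro f hf n hn
  have hn1 : (1 : ℝ) ≤ n := by exact_mod_cast hn
  have hn0 : (0 : ℝ) ≤ n := by linarith
  have hT := ht f hf n hn
  set W := SawNu.saw f n with hW
  set T := W.filter (fun s => ∃ j : Fin (n + 1), (n : ℝ) ^ (1 - c) ≤ ‖SawNu.pos f s j‖) with hTdef
  set P : ℝ := (n : ℝ) ^ (2 - 2 * c) with hP
  have hP1 : 1 ≤ P := Real.one_le_rpow hn1 (by linarith)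
  have hPsq : ((n : ℝ) ^ (1 - c)) ^ 2 = P := by
    rw [hP, ← Real.rpow_natCast, ← Real.rpow_mul hn0]
    congr 1
    push_cast
    ring
  have hbig : ∀ s : Fin n → Fin 3, (⨆ j : Fin (n + 1), ‖SawNu.pos f s j‖ ^ 2) ≤ (n : ℝ) ^ 2 := by
    intro s
    refine ciSup_le fun j => ?_
    exact pow_le_pow_left₀ (norm_nonneg _) (finA3_pos f hf s j) 2
  have hsmall : ∀ s ∈ W, s ∉ T → (⨆ j : Fin (n + 1), ‖SawNu.pos f s j‖ ^ 2) ≤ P := by
    intro s hs hsT
    refine ciSup_le fun j => ?_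
    have h1 : ‖SawNu.pos f s j‖ < (n : ℝ) ^ (1 - c) := by
      by_contra hcon
      exact hsT (Finset.mem_filter.2 ⟨hs, j, not_lt.1 hcon⟩)
    rw [← hPsq]
    exact pow_le_pow_left₀ (norm_nonneg _) h1.le 2
  have hsum : (∑ s ∈ W, ⨆ j : Fin (n + 1), ‖SawNu.pos f s j‖ ^ 2) ≤
      P * (W.card : ℝ) + (n : ℝ) ^ 2 * (T.card : ℝ) := by
    have h1 : ∀ s ∈ W, (⨆ j : Fin (n + 1), ‖SawNu.pos f s j‖ ^ 2) ≤
        P + (if s ∈ T then (n : ℝ) ^ 2 else 0) := by
      intro s hs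
      by_cases hsT : s ∈ T
      · rw [if_pos hsT]
        have := hbig s
        linarith
      · rw [if_neg hsT, add_zero]
        exact hsmall s hs hsT
    refine (Finset.sum_le_sum h1).trans ?_
    rw [Finset.sum_add_distrib, Finset.sum_const, nsmul_eq_mul, ← Finset.sum_filter]
    have h2 : W.filter (fun s => s ∈ T) = T := by
      ext s
      simp only [Finset.mem_filter, hTdef]
      tauto
    rw [h2, Finset.sum_const, nsmul_eq_mul]
    linarith
  have hexp := finA3_exp hn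
  have hW0 : (0 : ℝ) ≤ (W.card : ℝ) := Nat.cast_nonneg _
  have hsum2 : (∑ s ∈ W, ⨆ j : Fin (n + 1), ‖SawNu.pos f s j‖ ^ 2) ≤
      ((1 + 6 * K) * P) * (W.card : ℝ) := by
    refine hsum.trans ?_
    have h3 : (n : ℝ) ^ 2 * (T.card : ℝ) ≤
        (n : ℝ) ^ 2 * (K * Real.exp (-((n : ℝ) ^ (3 / 4 : ℝ))) * (W.card : ℝ)) :=
      mul_le_mul_of_nonneg_left hT (by positivity)
    have h4 : (n : ℝ) ^ 2 * (K * Real.exp (-((n : ℝ) ^ (3 / 4 : ℝ))) * (W.card : ℝ)) =
        K * (W.card : ℝ) * ((n : ℝ) ^ 2 * Real.exp (-((n : ℝ) ^ (3 / 4 : ℝ)))) := by ring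
    have h5 : K * (W.card : ℝ) * ((n : ℝ) ^ 2 * Real.exp (-((n : ℝ) ^ (3 / 4 : ℝ)))) ≤
        K * (W.card : ℝ) * 6 := mul_le_mul_of_nonneg_left hexp (by positivity)
    have h6 : K * (W.card : ℝ) * 6 ≤ 6 * K * P * (W.card : ℝ) := by
      have : 6 * K * (W.card : ℝ) * 1 ≤ 6 * K * (W.card : ℝ) * P :=
        mul_le_mul_of_nonneg_left hP1 (by positivity)
      nlinarith
    nlinarith
  rcases Nat.eq_zero_or_pos W.card with hz | hz
  · have hz' : (W.card : ℝ) = 0 := by exact_mod_cast hz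
    rw [hz', _root_.div_zero]
    exact mul_nonneg (by linarith) (by linarith)
  · have hz' : (0 : ℝ) < (W.card : ℝ) := by exact_mod_cast hz
    rw [div_le_iff₀ hz']
    exact hsum2

end HexObs
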