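import Pool.Agent.TST.FinA

/-!
T*, end, B3b: the mean square for all walks from the tail (exponent c5 arbitrary).
-/

set_option autoImplicit false
open scoped Classical

namespace HexObs

open Complex Finset ENNReal

private theorem finB3b_norm (f : ℕ → Fin 3 → ℂ) (hf : ∀ i a, f i a =
    (-1 : ℂ) ^ i * Complex.exp (2 * (Real.pi : ℂ) * Complex.I * ((a : ℕ) : ℂ) / 3)) (i : ℕ)
    (a : Fin 3) : ‖f i a‖ = 1 := by
  rw [hf, norm_mul, norm_pow, norm_neg, norm_one, one_pow, one_mul]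
  have h : (2 * (Real.pi : ℂ) * Complex.I * ((a : ℕ) : ℂ) / 3) =
      ((2 * Real.pi * ((a : ℕ) : ℝ) / 3 : ℝ) : ℂ) * Complex.I := by
    push_cast
    ring
  rw [h, Complex.norm_exp_ofReal_mul_I]

private theorem finB3b_pos (f : ℕ → Fin 3 → ℂ) (hf : ∀ i a, f i a =
    (-1 : ℂ) ^ i * Complex.exp (2 * (Real.pi : ℂ) * Complex.I * ((a : ℕ) : ℂ) / 3)) {n : ℕ}
    (s : Fin n → Fin 3) (j : ℕ) : ‖SawNu.pos f s j‖ ≤ n := by
  unfold SawNu.pos
  refine (norm_sum_le _ _).trans ?_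
  have h1 : ∑ i ∈ Finset.univ.filter (fun i : Fin n => (i : ℕ) < j), ‖f (i : ℕ) (s i)‖ =
      ∑ _i ∈ Finset.univ.filter (fun i : Fin n => (i : ℕ) < j), (1 : ℝ) :=
    Finset.sum_congr rfl (fun i _ => finB3b_norm f hf (i : ℕ) (s i))
  rw [h1, Finset.sum_const, nsmul_eq_mul, mul_one]
  have h := Finset.card_filter_le (Finset.univ : Finset (Fin n)) (fun i : Fin n => (i : ℕ) < j)
  rw [Finset.card_univ, Fintype.card_fin] at h
  exact_mod_cast h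

private theorem finB3b_exp {c5 : ℝ} (hc5 : 0 < c5) : ∃ B : ℝ, 0 < B ∧ ∀ n : ℕ, 1 ≤ n →
    (n : ℝ) ^ 2 * Real.exp (-((n : ℝ) ^ c5)) ≤ B := by
  set k : ℕ := ⌈2 / c5⌉₊ with hk
  have hk1 : 2 / c5 ≤ k := Nat.le_ceil _
  have hk2 : 2 ≤ c5 * k := by
    rw [div_le_iff₀ hc5] at hk1
    linarith
  refine ⟨(Nat.factorial k : ℝ), by exact_mod_cast Nat.factorial_pos k, ?_⟩
  intro n hn
  have h1 : (1 : ℝ) ≤ n := by exact_mod_cast hn
  have h0 : (0 : ℝ) ≤ n := by linarith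
  set y : ℝ := (n : ℝ) ^ c5 with hy
  have hy0 : 0 ≤ y := Real.rpow_nonneg h0 _
  have h2 : (n : ℝ) ^ 2 ≤ y ^ k := by
    have h3 : y ^ k = (n : ℝ) ^ (c5 * k) := by
      rw [hy, ← Real.rpow_natCast, ← Real.rpow_mul h0]
    rw [h3, ← Real.rpow_natCast]
    exact Real.rpow_le_rpow_of_exponent_le h1 (by push_cast; exact hk2)
  have h4 : y ^ k / (Nat.factorial k : ℝ) ≤ Real.exp y := Real.pow_div_factorial_le_exp y hy0 k
  have hf : (0 : ℝ) < (Nat.factorial k : ℝ) := by exact_mod_cast Nat.factorial_pos k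
  have h6 : y ^ k ≤ (Nat.factorial k : ℝ) * Real.exp y := by
    rw [div_le_iff₀ hf] at h4
    linarith
  rw [Real.exp_neg]
  have h7 := Real.exp_pos y
  rw [← div_eq_mul_inv, div_le_iff₀ h7]
  linarith

theorem mean_of_tail (h : ∃ c c5 K : ℝ, 0 < c ∧ c < 1 ∧ 0 < c5 ∧ 0 < K ∧
    ∀ (f : ℕ → Fin 3 → ℂ), (∀ i a, f i a =
      (-1 : ℂ) ^ i * Complex.exp (2 * (Real.pi : ℂ) * Complex.I * ((a : ℕ) : ℂ) / 3)) →
    ∀ n : ℕ, 1 ≤ n →
    (((SawNu.saw f n).filter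
        (fun s => ∃ j : Fin (n + 1), (n : ℝ) ^ (1 - c) ≤ ‖SawNu.pos f s j‖)).card : ℝ) ≤
      K * Real.exp (-((n : ℝ) ^ c5)) * ((SawNu.saw f n).card : ℝ)) :
    ∃ c K : ℝ, 0 < c ∧ 0 < K ∧ ∀ (f : ℕ → Fin 3 → ℂ), (∀ i a, f i a =
    (-1 : ℂ) ^ i * Complex.exp (2 * (Real.pi : ℂ) * Complex.I * ((a : ℕ) : ℂ) / 3)) →
    ∀ n : ℕ, 1 ≤ n →
    (∑ s ∈ SawNu.saw f n, ⨆ j : Fin (n + 1), ‖SawNu.pos f s j‖ ^ 2) / ((SawNu.saw f n).card : ℝ) ≤
      K * (n : ℝ) ^ (2 - c) := by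
  obtain ⟨c, c5, K, hc0, hc1, hc5, hK, ht⟩ := h
  obtain ⟨B, hB, hexpB⟩ := finB3b_exp hc5
  refine ⟨2 * c, 1 + B * K, by linarith, by positivity, ?_⟩
  intro f hf n hn
  have hn1 : (1 : ℝ) ≤ n := by exact_mod_cast hn
  have hn0 : (0 : ℝ) ≤ n := by linarith
  have hT := ht f hf n hn
  set W := SawNu.saw f n with hW
  set T := W.filter (fun s => ∃ j : Fin (n + 1), (n : ℝ) ^ (1 - c) ≤ ‖SawNu.pos f s j‖) with hTdef
  set P : ℝ := (n : ℝ) ^ (2 - 2 * c) with hP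
  have hP1 : 1 ≤ P := Real.one_le_rpow hn1 (by linarith)
  have hPsq : ((n : ℝ) ^ (1 - c)) ^ 2 = P := by
    rw [hP, ← Real.rpow_natCast, ← Real.rpow_mul hn0]
    congr 1
    push_cast
    ring
  have hbig : ∀ s : Fin n → Fin 3, (⨆ j : Fin (n + 1), ‖SawNu.pos f s j‖ ^ 2) ≤ (n : ℝ) ^ 2 := by
    intro s
    refine ciSup_le fun j => ?_
    exact pow_le_pow_left₀ (norm_nonneg _) (finB3b_pos f hf s j) 2
  have hsmall : ∀ s ∈ W, s ∉ T → (⨆ j : Fin (n + 1), ‖SawNu.pos f s j‖ ^ 2) ≤ P := by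
    intro s hs hsT
    refine ciSup_le fun j => ?_
    have h1 : ‖SawNu.pos f s j‖ < (n : ℝ) ^ (1 - c) := by
      by_contra hcon
      exact hsT (Finset.mem_filter.2 ⟨hs, j, not_lt.1 hcon⟩)
    rw [← hPsq]
    exact pow_le_pow_left₀ (norm_nonneg _) h1.le 2
  have hsum : (∑ s ∈ W, ⨆ j : Fin (n + 1), ‖SawNu.pos f s j‖ ^ 2) ≤
      P * (W.card : ℝ) + (n : ℝ) ^ 2 * (T.card : ℝ) := by
    have h1 : ∀ s ∈ W, (⨆ j : Fin (n + 1), ‖SawNu.pos f s j‖ ^ 2) ≤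
        P + (if s ∈ T then (n : ℝ) ^ 2 else 0) := by
      intro s hs
      by_cases hsT : s ∈ T
      · rw [if_pos hsT]
        have := hbig s
        linarith
      · rw [if_neg hsT, add_zero]
        exact hsmall s hs hsT
    refine (Finset.sum_le_sum h1).trans ?_
    rw [Finset.sum_add_distrib, Finset.sum_const, nsmul_eq_mul, ← Finset.sum_filter]
    have h2 : W.filter (fun s => s ∈ T) = T := by
      ext s
      simp only [Finset.mem_filter, hTdef]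
      tauto
    rw [h2, Finset.sum_const, nsmul_eq_mul]
    linarith
  have hexp := hexpB n hn
  have hW0 : (0 : ℝ) ≤ (W.card : ℝ) := Nat.cast_nonneg _
  have hsum2 : (∑ s ∈ W, ⨆ j : Fin (n + 1), ‖SawNu.pos f s j‖ ^ 2) ≤
      ((1 + B * K) * P) * (W.card : ℝ) := by
    refine hsum.trans ?_
    have h3 : (n : ℝ) ^ 2 * (T.card : ℝ) ≤
        (n : ℝ) ^ 2 * (K * Real.exp (-((n : ℝ) ^ c5)) * (W.card : ℝ)) :=
      mul_le_mul_of_nonneg_left hT (by positivity)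
    have h4 : (n : ℝ) ^ 2 * (K * Real.exp (-((n : ℝ) ^ c5)) * (W.card : ℝ)) =
        K * (W.card : ℝ) * ((n : ℝ) ^ 2 * Real.exp (-((n : ℝ) ^ c5))) := by ring
    have h5 : K * (W.card : ℝ) * ((n : ℝ) ^ 2 * Real.exp (-((n : ℝ) ^ c5))) ≤
        K * (W.card : ℝ) * B := mul_le_mul_of_nonneg_left hexp (by positivity)
    have h6 : K * (W.card : ℝ) * B ≤ B * K * P * (W.card : ℝ) := by
      have : B * K * (W.card : ℝ) * 1 ≤ B * K * (W.card : ℝ) * P :=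
        mul_le_mul_of_nonneg_left hP1 (by positivity)
      nlinarith
    nlinarith
  rcases Nat.eq_zero_or_pos W.card with hz | hz
  · have hz' : (W.card : ℝ) = 0 := by exact_mod_cast hz
    rw [hz', _root_.div_zero]
    exact mul_nonneg (by positivity) (Real.rpow_nonneg hn0 _)
  · have hz' : (0 : ℝ) < (W.card : ℝ) := by exact_mod_cast hz
    rw [div_le_iff₀ hz']
    exact hsum2

end HexObs
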