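import Pool.Agent.TST.Wx
import Pool.Agent.W47.Base

/-!
TST: half plane words, full plane words, the hypothesis Rate.
-/

set_option autoImplicit false

namespace HexObs

open Complex Finset ENNReal

/-- the level of the vertex number i. -/
def levT (v0 d0 : Pt) (t : List Bool) (i : ℕ) : ℤ := ip (vx v0 d0 t i - v0) d0

/-- full plane words: all vertices are different (the last letter is free). -/
def Inj (v0 d0 : Pt) (t : List Bool) : Prop := ∀ i k, i < k → k ≤ t.length → vx v0 d0 t i ≠ vx v0 d0 t k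

/-- half plane words with all levels at most 3k+2. -/
def HPk (k : ℕ) : Set (List Bool) :=
  {t | Inj oo up t ∧ ∀ i, 1 ≤ i → i ≤ t.length → 0 < levT oo up t i ∧ levT oo up t i ≤ 3 * k + 2}

/-- ... that visit the lowest level only with their first vertex. -/
def SP (k : ℕ) : Set (List Bool) := {t | t ∈ HPk k ∧ ∀ i, 2 ≤ i → i ≤ t.length → 3 ≤ levT oo up t i}

/-- half plane words. -/
def HPw : Set (List Bool) := {t | Inj oo up t ∧ ∀ i, 1 ≤ i → i ≤ t.length → 0 < levT oo up t i}

/-- half plane words that reach the level 3R. -/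
def HPR (R : ℕ) : Set (List Bool) := {t | t ∈ HPw ∧ ∃ i, i ≤ t.length ∧ 3 * (R : ℤ) ≤ levT oo up t i}

/-- the words of n letters with first direction d that reach the level r in the direction e. -/
def FW (d e : Pt) (n : ℕ) (r : ℤ) : Set (List Bool) :=
  {t | t.length = n ∧ Inj oo d t ∧ ∃ i, i ≤ n ∧ r ≤ ip (vx oo d t i) e}

/-- the number of full plane words of n letters. -/
noncomputable def NW (n : ℕ) : ℕ := Set.ncard {t : List Bool | t.length = n ∧ Inj oo up t}

/-- the correlation length is at most lam^(-1/(1+a)). -/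
def Rate : Prop := ∃ a : ℝ, 0 < a ∧ a ≤ 1 ∧ ∃ s0 : ℕ, 1 ≤ s0 ∧ ∀ s t : ℕ, s0 ≤ s → s ≤ t →
  AX (xc * Real.exp (-((s : ℝ) ^ (-(1 + a))))) t ≤ ENNReal.ofReal (Real.exp (-((t : ℝ) / s)))

end HexObs
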