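import Pool.Agent.TST.HWStep

/-!
TST HWNum: the crude Hammersley-Welsh product. S is a bound for the sum of all A_m, m >= 1.
1 + SP (m+1) <= (1 + SP m) (1 + 7 A_(m+1)).
-/

set_option autoImplicit false

namespace HexObs

open Complex Finset ENNReal

lemma HWNum_xc_le : xc ≤ 11 / 20 := by
  have h1 := xc_sq
  have h2 : (1 : ℝ) ≤ Real.sqrt 2 := by
    rw [show (1 : ℝ) = Real.sqrt 1 by simp]
    exact Real.sqrt_le_sqrt (by norm_num)
  have h3 : xc ^ 2 ≤ 1 / 3 := by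
    rw [h1]
    apply one_div_le_one_div_of_le (by norm_num)
    linarith
  have h4 : (7 / 5 : ℝ) ≤ Real.sqrt 2 := by
    rw [show (7 / 5 : ℝ) = Real.sqrt ((7 / 5) ^ 2) by rw [Real.sqrt_sq]; norm_num]
    exact Real.sqrt_le_sqrt (by norm_num)
  have h5 : xc ^ 2 ≤ 1 / (17 / 5) := by
    rw [h1]
    apply one_div_le_one_div_of_le (by norm_num)
    linarith
  have h6 : xc ^ 2 ≤ (11 / 20) ^ 2 := h5.trans (by norm_num)
  exact le_of_sq_le_sq h6 (by norm_num)
where
  le_of_sq_le_sq {a b : ℝ} (h : a ^ 2 ≤ b ^ 2) (hb : 0 ≤ b) : a ≤ b := abs_le_of_sq_le_sq' h hb |>.2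

section

variable {x S : ℝ}

lemma HWNum_c1 (hx1 : x ≤ xc) : ENNReal.ofReal (2 * x) + 2 ≤ 4 := by
  have h1 := HWNum_xc_le
  have h2 : ENNReal.ofReal (2 * x) ≤ ENNReal.ofReal 2 := ENNReal.ofReal_le_ofReal (by linarith)
  rw [ENNReal.ofReal_ofNat] at h2
  calc ENNReal.ofReal (2 * x) + 2 ≤ 2 + 2 := by gcongr
    _ = 4 := by norm_num

lemma HWNum_c2 (hx : 1 / 3 ≤ x) : ENNReal.ofReal x⁻¹ ≤ 3 := by
  have h2 : ENNReal.ofReal x⁻¹ ≤ ENNReal.ofReal 3 := by
    apply ENNReal.ofReal_le_ofReal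
    rw [inv_le_comm₀ (by linarith) (by norm_num)]
    linarith
  rwa [ENNReal.ofReal_ofNat] at h2

lemma HWNum_c0 (hx1 : x ≤ xc) : ENNReal.ofReal (1 + 2 * x) ≤ 3 := by
  have h1 := HWNum_xc_le
  have h2 : ENNReal.ofReal (1 + 2 * x) ≤ ENNReal.ofReal 3 := ENNReal.ofReal_le_ofReal (by linarith)
  rwa [ENNReal.ofReal_ofNat] at h2

lemma HWNum_AX_real (hx : 1 / 3 ≤ x) (hx1 : x ≤ xc) (m : ℕ) :
    ENNReal.ofReal (AX x (m + 1)).toReal = AX x (m + 1) := by
  apply ENNReal.ofReal_toReal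
  have := AX_le_one (x := x) (by linarith) hx1 (T := m + 1) (by omega)
  exact (lt_of_le_of_lt this (by norm_num)).ne

lemma HWNum_sum (hx : 1 / 3 ≤ x) (hx1 : x ≤ xc) (hS : 0 ≤ S)
    (h : ∑' m : ℕ, AX x (m + 1) ≤ ENNReal.ofReal S) (k : ℕ) :
    ∑ m ∈ Finset.range k, (AX x (m + 1)).toReal ≤ S := by
  have h1 : ∑ m ∈ Finset.range k, AX x (m + 1) ≤ ENNReal.ofReal S :=
    (ENNReal.sum_le_tsum _).trans h
  have h2 : ∑ m ∈ Finset.range k, AX x (m + 1) =
      ENNReal.ofReal (∑ m ∈ Finset.range k, (AX x (m + 1)).toReal) := by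
    rw [ENNReal.ofReal_sum_of_nonneg (fun _ _ => ENNReal.toReal_nonneg)]
    exact Finset.sum_congr rfl (fun m _ => (HWNum_AX_real hx hx1 m).symm)
  rw [h2] at h1
  exact (ENNReal.ofReal_le_ofReal_iff hS).1 h1

lemma HWNum_SP (hx : 1 / 3 ≤ x) (hx1 : x ≤ xc) (k : ℕ) :
    1 + gX x (SP k) ≤ ENNReal.ofReal (4 * Real.exp (7 * ∑ m ∈ Finset.range k, (AX x (m + 1)).toReal)) := by
  have hx0 : 0 < x := by linarith
  induction k with
  | zero =>
    simp only [Finset.range_zero, Finset.sum_empty, mul_zero, Real.exp_zero, mul_one, ENNReal.ofReal_ofNat]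
    calc 1 + gX x (SP 0) ≤ 1 + 3 := by
          gcongr
          exact (SP_zero hx0).trans (HWNum_c0 hx1)
      _ = 4 := by norm_num
  | succ k ih =>
    have h1 := SP_step hx0 k
    have c1 := HWNum_c1 hx1
    have c2 := HWNum_c2 hx
    set A := AX x (k + 1) with hA
    set g := gX x (SP k) with hg
    have h2 : 1 + gX x (SP (k + 1)) ≤ (1 + g) * (1 + 7 * A) := by
      calc 1 + gX x (SP (k + 1)) ≤ 1 + (g + (4 * A + 3 * (A * g))) := by
            gcongr
            exact h1.trans (by gcongr)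
        _ ≤ 1 + (g + (7 * A + 7 * (A * g))) := by gcongr <;> norm_num
        _ = (1 + g) * (1 + 7 * A) := by ring
    have h3 : 1 + 7 * A ≤ ENNReal.ofReal (Real.exp (7 * A.toReal)) := by
      have h4 : (1 : ℝ≥0∞) + 7 * A = ENNReal.ofReal (1 + 7 * A.toReal) := by
        rw [ENNReal.ofReal_add (by norm_num) (by positivity), ENNReal.ofReal_mul (by norm_num),
          ENNReal.ofReal_one, ENNReal.ofReal_ofNat, hA, HWNum_AX_real hx hx1 k]
      rw [h4]
      apply ENNReal.ofReal_le_ofReal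
      have := Real.add_one_le_exp (7 * A.toReal)
      linarith
    refine h2.trans ((mul_le_mul' ih h3).trans (le_of_eq ?_))
    rw [← ENNReal.ofReal_mul (by positivity), Finset.sum_range_succ, mul_add, Real.exp_add]
    congr 1
    ring

theorem HWNum_SP_le (hx : 1 / 3 ≤ x) (hx1 : x ≤ xc) (hS : 0 ≤ S)
    (h : ∑' m : ℕ, AX x (m + 1) ≤ ENNReal.ofReal S) (k : ℕ) :
    gX x (SP k) ≤ ENNReal.ofReal (4 * Real.exp (7 * S)) := by
  have h1 := HWNum_SP hx hx1 k
  have h2 := HWNum_sum hx hx1 hS h k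
  refine le_trans (le_trans le_add_self h1) (ENNReal.ofReal_le_ofReal ?_)
  have : Real.exp (7 * ∑ m ∈ Finset.range k, (AX x (m + 1)).toReal) ≤ Real.exp (7 * S) :=
    Real.exp_le_exp.2 (by linarith)
  linarith

/-- the factor of one bridge. -/
lemma HWNum_fac (hx : 1 / 3 ≤ x) (hx1 : x ≤ xc) (hS : 0 ≤ S)
    (h : ∑' m : ℕ, AX x (m + 1) ≤ ENNReal.ofReal S) (A : ℝ≥0∞) (k : ℕ) :
    (ENNReal.ofReal (2 * x) + 2) * A + ENNReal.ofReal x⁻¹ * (A * gX x (SP k)) ≤
      ENNReal.ofReal (16 * Real.exp (7 * S)) * A := by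
  have c1 := HWNum_c1 hx1
  have c2 := HWNum_c2 hx
  have h1 := HWNum_SP_le hx hx1 hS h k
  have he : (1 : ℝ) ≤ Real.exp (7 * S) := Real.one_le_exp (by linarith)
  calc (ENNReal.ofReal (2 * x) + 2) * A + ENNReal.ofReal x⁻¹ * (A * gX x (SP k)) ≤
        4 * A + 3 * (A * ENNReal.ofReal (4 * Real.exp (7 * S))) := by gcongr
    _ = (4 + 3 * ENNReal.ofReal (4 * Real.exp (7 * S))) * A := by ring
    _ ≤ ENNReal.ofReal (16 * Real.exp (7 * S)) * A := by
        gcongr
        have e1 : (4 : ℝ≥0∞) = ENNReal.ofReal 4 := (ENNReal.ofReal_ofNat 4).symm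
        have e2 : (3 : ℝ≥0∞) = ENNReal.ofReal 3 := (ENNReal.ofReal_ofNat 3).symm
        rw [e1, e2, ← ENNReal.ofReal_mul (by norm_num), ← ENNReal.ofReal_add (by norm_num) (by positivity)]
        apply ENNReal.ofReal_le_ofReal
        linarith

lemma HWNum_HP (hx : 1 / 3 ≤ x) (hx1 : x ≤ xc) (hS : 0 ≤ S)
    (h : ∑' m : ℕ, AX x (m + 1) ≤ ENNReal.ofReal S) (k : ℕ) :
    gX x (HPk k) ≤ ENNReal.ofReal (3 + 16 * Real.exp (7 * S) * ∑ m ∈ Finset.range k, (AX x (m + 1)).toReal) := by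
  have hx0 : 0 < x := by linarith
  induction k with
  | zero =>
    simp only [Finset.range_zero, Finset.sum_empty, mul_zero, add_zero, ENNReal.ofReal_ofNat]
    exact (HP_zero hx0).trans (HWNum_c0 hx1)
  | succ k ih =>
    have h1 := HP_step hx0 k
    have h2 := HWNum_fac hx hx1 hS h (AX x (k + 1)) (k + 1)
    refine h1.trans ((add_le_add ih h2).trans (le_of_eq ?_))
    rw [← HWNum_AX_real hx hx1 k, ← ENNReal.ofReal_mul (by positivity),
      ← ENNReal.ofReal_add (by positivity) (by positivity), Finset.sum_range_succ]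
    congr 1
    ring

lemma HWNum_union {P : Set (List Bool)} (F : ℕ → Set (List Bool)) (hF : Monotone F)
    (h : P ⊆ ⋃ n, F n) {c : ℝ≥0∞} (hc : ∀ n, gX x (F n) ≤ c) : gX x P ≤ c := by
  classical
  unfold gX
  rw [ENNReal.tsum_eq_iSup_sum]
  apply iSup_le
  intro s
  have key : ∀ s : Finset P, ∃ n, ∀ a ∈ s, (a : List Bool) ∈ F n := by
    intro s
    induction s using Finset.induction_on with
    | empty => exact ⟨0, by simp⟩
    | insert a s _ ih =>
      obtain ⟨n, hn⟩ := ih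
      have h2 := h a.2
      rw [Set.mem_iUnion] at h2
      obtain ⟨m, hm⟩ := h2
      refine ⟨max n m, ?_⟩
      intro t ht
      rw [Finset.mem_insert] at ht
      rcases ht with rfl | ht
      · exact hF (le_max_right n m) hm
      · exact hF (le_max_left n m) (hn t ht)
  obtain ⟨n, hn⟩ := key s
  refine le_trans ?_ (hc n)
  unfold gX
  have e1 : ∑ a ∈ s, wX x (a : List Bool) = ∑ a ∈ s.attach, wX x ((a : P) : List Bool) :=
    (Finset.sum_attach s (fun a : P => wX x (a : List Bool))).symm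
  rw [e1]
  let ψ : {a // a ∈ s} → F n := fun a => ⟨a.1.1, hn a.1 a.2⟩
  have hψ : Function.Injective ψ := by
    intro a b hab
    have := congrArg Subtype.val hab
    exact Subtype.ext (Subtype.ext this)
  calc ∑ a ∈ s.attach, wX x ((a : P) : List Bool) = ∑' a : {a // a ∈ s}, wX x ((ψ a : F n) : List Bool) := by
        rw [tsum_fintype]
        rfl
    _ ≤ ∑' t : F n, wX x t := ENNReal.tsum_comp_le_tsum_of_injective hψ (fun t : F n => wX x t)

end

theorem SP_le {x S : ℝ} (hx : 1 / 3 ≤ x) (hx1 : x ≤ xc) (hS : 0 ≤ S)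
    (h : ∑' m : ℕ, AX x (m + 1) ≤ ENNReal.ofReal S) (k : ℕ) :
    gX x (SP k) ≤ ENNReal.ofReal (4 * Real.exp (7 * S)) := HWNum_SP_le hx hx1 hS h k

theorem HPw_le {x S : ℝ} (hx : 1 / 3 ≤ x) (hx1 : x ≤ xc) (hS : 0 ≤ S)
    (h : ∑' m : ℕ, AX x (m + 1) ≤ ENNReal.ofReal S) :
    gX x HPw ≤ ENNReal.ofReal (40 * Real.exp (8 * S)) := by
  apply HWNum_union HPk
  · intro k l hkl t ht
    refine ⟨ht.1, fun i h1 h2 => ⟨(ht.2 i h1 h2).1, (ht.2 i h1 h2).2.trans ?_⟩⟩
    have : (k : ℤ) ≤ l := by exact_mod_cast hkl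
    linarith
  · intro t ht
    rw [Set.mem_iUnion]
    refine ⟨∑ i ∈ Finset.range (t.length + 1), (levT oo up t i).toNat, ht.1, fun i h1 h2 => ⟨ht.2 i h1 h2, ?_⟩⟩
    have h3 : (levT oo up t i).toNat ≤ ∑ i ∈ Finset.range (t.length + 1), (levT oo up t i).toNat :=
      Finset.single_le_sum (f := fun i => (levT oo up t i).toNat) (fun _ _ => Nat.zero_le _)
        (Finset.mem_range.2 (by omega))
    have h4 := Int.self_le_toNat (levT oo up t i)
    have h5 : ((levT oo up t i).toNat : ℤ) ≤ ((∑ i ∈ Finset.range (t.length + 1), (levT oo up t i).toNat : ℕ) : ℤ) := by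
      exact_mod_cast h3
    linarith [Int.natCast_nonneg (∑ i ∈ Finset.range (t.length + 1), (levT oo up t i).toNat)]
  · intro k
    refine (HWNum_HP hx hx1 hS h k).trans (ENNReal.ofReal_le_ofReal ?_)
    have h2 := HWNum_sum hx hx1 hS h k
    have h3 : S ≤ Real.exp S := by
      have := Real.add_one_le_exp S
      linarith
    have h4 : Real.exp (8 * S) = Real.exp (7 * S) * Real.exp S := by
      rw [← Real.exp_add]
      congr 1
      ring
    have h5 : (1 : ℝ) ≤ Real.exp (8 * S) := Real.one_le_exp (by linarith)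
    have h6 : 0 < Real.exp (7 * S) := Real.exp_pos _
    have h7 : 16 * Real.exp (7 * S) * ∑ m ∈ Finset.range k, (AX x (m + 1)).toReal ≤
        16 * Real.exp (7 * S) * Real.exp S := by
      apply mul_le_mul_of_nonneg_left (h2.trans h3)
      positivity
    have h8 : 16 * Real.exp (7 * S) * Real.exp S = 16 * Real.exp (8 * S) := by
      rw [h4]
      ring
    linarith

theorem HPR_tail {x S : ℝ} (hx : 1 / 3 ≤ x) (hx1 : x ≤ xc) (hS : 0 ≤ S)
    (h : ∑' m : ℕ, AX x (m + 1) ≤ ENNReal.ofReal S) {R : ℕ} (hR : 1 ≤ R) :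
    gX x (HPR R) ≤ ENNReal.ofReal (20 * Real.exp (7 * S)) * ∑' j : ℕ, AX x (R + j) := by
  have hx0 : 0 < x := by linarith
  refine (HPR_le hx0 hR).trans ?_
  rw [← ENNReal.tsum_mul_left]
  apply ENNReal.tsum_le_tsum
  intro j
  refine (HWNum_fac hx hx1 hS h (AX x (R + j)) (R + j)).trans ?_
  gcongr
  norm_num

end HexObs
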