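import Pool.Agent.TST.TopCut

/-!
TST HWStepA: the inequalities from top_cut.
-/

set_option autoImplicit false

namespace HexObs

open Complex Finset ENNReal

lemma HWStepA_snoc {x : ℝ} (hx : 0 < x) (B : Set (List Bool)) :
    gX x {t | ∃ a c, t = a ++ [c] ∧ a ∈ B} ≤ ENNReal.ofReal (2 * x) * gX x B := by
  have h1 : ∀ c : Bool, gX x {t | ∃ a, t = a ++ [c] ∧ a ∈ B} ≤ ENNReal.ofReal x * gX x B := by
    intro c
    refine gX_le_of_inj (fun t => t.dropLast) ?_ ?_ _ ?_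
    · rintro t ⟨a, rfl, ha⟩
      simpa using ha
    · rintro s ⟨a, rfl, ha⟩ t ⟨b, rfl, hb⟩ hst
      simp only [List.dropLast_concat] at hst
      rw [hst]
    · rintro t ⟨a, rfl, ha⟩
      simp only [List.dropLast_concat]
      rw [wX_append hx.le, wX_single, mul_comm]
  have h2 : {t | ∃ a c, t = a ++ [c] ∧ a ∈ B} ⊆
      {t | ∃ a, t = a ++ [true] ∧ a ∈ B} ∪ {t | ∃ a, t = a ++ [false] ∧ a ∈ B} := by
    rintro t ⟨a, c, h, ha⟩
    cases c
    · exact Or.inr ⟨a, h, ha⟩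
    · exact Or.inl ⟨a, h, ha⟩
  refine ((gX_mono x h2).trans (gX_union_le x _ _)).trans ((add_le_add (h1 true) (h1 false)).trans ?_)
  rw [← add_mul, ← ENNReal.ofReal_add hx.le hx.le, two_mul]

lemma HWStepA_flip {x : ℝ} (B : Set (List Bool)) :
    gX x {t | ∃ a c, t = a ++ [c] ∧ (a ++ [c] ∈ B ∨ a ++ [!c] ∈ B)} ≤ 2 * gX x B := by
  have h2 : {t | ∃ a c, t = a ++ [c] ∧ (a ++ [c] ∈ B ∨ a ++ [!c] ∈ B)} ⊆
      B ∪ {t | ∃ a c, t = a ++ [c] ∧ a ++ [!c] ∈ B} := by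
    rintro t ⟨a, c, h, ha | ha⟩
    · left
      rw [h]
      exact ha
    · exact Or.inr ⟨a, c, h, ha⟩
  have h3 : gX x {t | ∃ a c, t = a ++ [c] ∧ a ++ [!c] ∈ B} ≤ 1 * gX x B := by
    refine gX_le_of_inj (fun t => t.dropLast ++ [!(t.getLastD true)]) ?_ ?_ _ ?_
    · rintro t ⟨a, c, rfl, ha⟩
      simpa using ha
    · rintro s ⟨a, c, rfl, ha⟩ t ⟨b, d, rfl, hb⟩ hst
      simp only [List.dropLast_concat, List.getLastD_concat] at hst
      have h4 := List.append_inj' hst rfl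
      have h5 : c = d := by
        have := h4.2
        simp only [List.cons.injEq, and_true] at this
        cases c <;> cases d <;> simp_all
      rw [h4.1, h5]
    · rintro t ⟨a, c, rfl, ha⟩
      rw [one_mul]
      apply le_of_eq
      apply wX_congr
      simp
  refine ((gX_mono x h2).trans (gX_union_le x _ _)).trans ((add_le_add le_rfl h3).trans ?_)
  rw [one_mul, two_mul]

lemma HWStepA_join {x : ℝ} (hx : 0 < x) (B Q : Set (List Bool)) :
    gX x {t | ∃ a c r, t = a ++ ([c] ++ r) ∧ a ++ [!c] ∈ B ∧ [!c] ++ r ∈ Q} ≤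
      ENNReal.ofReal x⁻¹ * (gX x B * gX x Q) := by
  classical
  set D := {t | ∃ a c r, t = a ++ ([c] ++ r) ∧ a ++ [!c] ∈ B ∧ [!c] ++ r ∈ Q} with hD
  have hcut : ∀ t ∈ D, ∃ p : List Bool × Bool × List Bool, t = p.1 ++ ([p.2.1] ++ p.2.2) ∧
      p.1 ++ [!p.2.1] ∈ B ∧ [!p.2.1] ++ p.2.2 ∈ Q := by
    rintro t ⟨a, c, r, h⟩
    exact ⟨(a, c, r), h⟩
  choose! p hp1 hp2 hp3 using hcut
  refine gX_le_pair (P := D) (Q := B) (R := Q) (ENNReal.ofReal x⁻¹)
    (fun t => (p t).1 ++ [!(p t).2.1]) (fun t => [!(p t).2.1] ++ (p t).2.2) hp2 hp3 ?_ ?_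
  · intro s hs t ht h1 h2
    have h3 := List.append_inj' h1 rfl
    have h4 := List.append_inj h2 rfl
    have h5 : (p s).2.1 = (p t).2.1 := by
      have := h3.2
      simp only [List.cons.injEq, and_true, Bool.not_eq_eq_eq_not, Bool.not_not] at this
      exact this
    rw [hp1 s hs, hp1 t ht, h3.1, h4.2, h5]
  · intro t ht
    rw [← wX_append hx.le]
    have hl : ((p t).1 ++ [!(p t).2.1] ++ ([!(p t).2.1] ++ (p t).2.2)).length = t.length + 1 := by
      conv_rhs => rw [hp1 t ht]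
      simp only [List.length_append, List.length_cons, List.length_nil]
      omega
    unfold wX
    rw [hl, ← ENNReal.ofReal_mul (by positivity), pow_succ]
    apply ENNReal.ofReal_le_ofReal
    have e : x⁻¹ * (x ^ t.length * x) = x ^ t.length := by
      field_simp
    rw [e]

/-- the words of the three cases of top_cut: injectivity by (a ++ [!c], [!c] ++ r). -/
theorem cut_weight {x : ℝ} (hx : 0 < x) {m : ℕ} (P Q : Set (List Bool))
    (h : ∀ t ∈ P, (∃ a c, t = a ++ [c] ∧ a ∈ out (strip oo up m) oo up up) ∨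
      (∃ a c, t = a ++ [c] ∧ (a ++ [c] ∈ out (strip oo up m) oo up up ∨ a ++ [!c] ∈ out (strip oo up m) oo up up)) ∨
      (∃ a c r, t = a ++ ([c] ++ r) ∧ a ++ [!c] ∈ out (strip oo up m) oo up up ∧ [!c] ++ r ∈ Q)) :
    gX x P ≤ (ENNReal.ofReal (2 * x) + 2) * AX x m + ENNReal.ofReal x⁻¹ * (AX x m * gX x Q) := by
  have hA : AX x m = gX x (out (strip oo up m) oo up up) := rfl
  rw [hA]
  set B := out (strip oo up m) oo up up with hB
  have hsub : P ⊆ ({t | ∃ a c, t = a ++ [c] ∧ a ∈ B} ∪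
      {t | ∃ a c, t = a ++ [c] ∧ (a ++ [c] ∈ B ∨ a ++ [!c] ∈ B)}) ∪
      {t | ∃ a c r, t = a ++ ([c] ++ r) ∧ a ++ [!c] ∈ B ∧ [!c] ++ r ∈ Q} := by
    intro t ht
    rcases h t ht with h1 | h1 | h1
    · exact Or.inl (Or.inl h1)
    · exact Or.inl (Or.inr h1)
    · exact Or.inr h1
  refine (gX_mono x hsub).trans ((gX_union_le x _ _).trans (add_le_add ?_ (HWStepA_join hx B Q)))
  refine (gX_union_le x _ _).trans ((add_le_add (HWStepA_snoc hx B) (HWStepA_flip B)).trans ?_)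
  rw [add_mul]

theorem SP_step {x : ℝ} (hx : 0 < x) (m : ℕ) :
    gX x (SP (m + 1)) ≤ gX x (SP m) + ((ENNReal.ofReal (2 * x) + 2) * AX x (m + 1) +
      ENNReal.ofReal x⁻¹ * (AX x (m + 1) * gX x (SP m))) := by
  set P := {t | t ∈ SP (m + 1) ∧ ∃ i, 1 ≤ i ∧ i ≤ t.length ∧ 3 * ((m : ℤ) + 1) ≤ levT oo up t i} with hP
  have hsub : SP (m + 1) ⊆ SP m ∪ P := by
    intro t ht
    rcases HP_succ ht.1 with h1 | h1
    · exact Or.inl ⟨h1, ht.2⟩
    · exact Or.inr ⟨ht, h1⟩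
  refine (gX_mono x hsub).trans ((gX_union_le x _ _).trans (add_le_add le_rfl ?_))
  apply cut_weight hx
  rintro t ⟨ht, i, hi1, hi2, hi3⟩
  rcases top_cut (m := m + 1) (by omega) ht.1 ⟨i, hi1, hi2, by push_cast; exact hi3⟩ with h1 | h1 | h1
  · exact Or.inl h1
  · exact Or.inr (Or.inl h1)
  · obtain ⟨a, c, r, e1, e2, _, e4⟩ := h1
    exact Or.inr (Or.inr ⟨a, c, r, e1, e2, e4 ht⟩)

theorem HP_step {x : ℝ} (hx : 0 < x) (m : ℕ) :
    gX x (HPk (m + 1)) ≤ gX x (HPk m) + ((ENNReal.ofReal (2 * x) + 2) * AX x (m + 1) +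
      ENNReal.ofReal x⁻¹ * (AX x (m + 1) * gX x (SP (m + 1)))) := by
  set P := {t | t ∈ HPk (m + 1) ∧ ∃ i, 1 ≤ i ∧ i ≤ t.length ∧ 3 * ((m : ℤ) + 1) ≤ levT oo up t i} with hP
  have hsub : HPk (m + 1) ⊆ HPk m ∪ P := by
    intro t ht
    rcases HP_succ ht with h1 | h1
    · exact Or.inl h1
    · exact Or.inr ⟨ht, h1⟩
  refine (gX_mono x hsub).trans ((gX_union_le x _ _).trans (add_le_add le_rfl ?_))
  apply cut_weight hx
  rintro t ⟨ht, i, hi1, hi2, hi3⟩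
  rcases top_cut (m := m + 1) (by omega) ht ⟨i, hi1, hi2, by push_cast; exact hi3⟩ with h1 | h1 | h1
  · exact Or.inl h1
  · exact Or.inr (Or.inl h1)
  · obtain ⟨a, c, r, e1, e2, e3, _⟩ := h1
    exact Or.inr (Or.inr ⟨a, c, r, e1, e2, e3⟩)

lemma HWStepA_lev2 (t : List Bool) : levT oo up t 2 = 3 := by
  show ip (vx oo up t 2 - oo) up = 3
  have h : vx oo up t 2 = oo + up + turn (tf t 0) up := rfl
  rw [h]
  cases tf t 0 <;> decide

lemma HWStepA_short {x : ℝ} (hx : 0 < x) {P : Set (List Bool)} (h : ∀ t ∈ P, t.length ≤ 1) :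
    gX x P ≤ ENNReal.ofReal (1 + 2 * x) := by
  have hsub : P ⊆ ({[]} ∪ {[true]}) ∪ {[false]} := by
    intro t ht
    have h1 := h t ht
    match t, h1 with
    | [], _ => exact Or.inl (Or.inl rfl)
    | [true], _ => exact Or.inl (Or.inr rfl)
    | [false], _ => exact Or.inr rfl
    | _ :: _ :: _, h2 => simp at h2
  refine (gX_mono x hsub).trans ((gX_union_le x _ _).trans ?_)
  refine (add_le_add (gX_union_le x _ _) le_rfl).trans ?_
  rw [gX_singleton, gX_singleton, gX_singleton, wX_nil, wX_single, wX_single]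
  have h1 : (1 : ℝ≥0∞) = ENNReal.ofReal 1 := by simp
  rw [h1, ← ENNReal.ofReal_add zero_le_one hx.le, ← ENNReal.ofReal_add (by positivity) hx.le]
  apply ENNReal.ofReal_le_ofReal
  linarith

lemma HWStepA_HP0 {t : List Bool} (ht : t ∈ HPk 0) : t.length ≤ 1 := by
  by_contra hcon
  have h1 := (ht.2 2 (by omega) (by omega)).2
  rw [HWStepA_lev2] at h1
  norm_num at h1

theorem SP_zero {x : ℝ} (hx : 0 < x) : gX x (SP 0) ≤ ENNReal.ofReal (1 + 2 * x) :=
  HWStepA_short hx fun _ ht => HWStepA_HP0 ht.1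

theorem HP_zero {x : ℝ} (hx : 0 < x) : gX x (HPk 0) ≤ ENNReal.ofReal (1 + 2 * x) :=
  HWStepA_short hx fun _ ht => HWStepA_HP0 ht

/-- the words whose highest level is 3m or 3m+2. -/
def hwStepBF (m : ℕ) : Set (List Bool) :=
  {t | t ∈ HPk m ∧ ∃ i, 1 ≤ i ∧ i ≤ t.length ∧ 3 * (m : ℤ) ≤ levT oo up t i}

lemma hwStepB_mem {R : ℕ} (hR : 1 ≤ R) {t : List Bool} (ht : t ∈ HPR R) : ∃ j : ℕ, t ∈ hwStepBF (R + j) := by
  obtain ⟨⟨h1, h2⟩, i0, hi0, hl0⟩ := ht
  obtain ⟨k, hk, hmax⟩ := Finset.exists_max_image (Finset.range (t.length + 1)) (fun i => levT oo up t i)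
    ⟨0, Finset.mem_range.2 (Nat.succ_pos _)⟩
  rw [Finset.mem_range] at hk
  have hM : 3 * (R : ℤ) ≤ levT oo up t k := hl0.trans (hmax i0 (Finset.mem_range.2 (by omega)))
  have hlev0 : levT oo up t 0 = 0 := by
    show ip (vx oo up t 0 - oo) up = 0
    have : vx oo up t 0 - oo = 0 := sub_self _
    rw [this]
    decide
  have hk1 : 1 ≤ k := by
    rcases Nat.eq_zero_or_pos k with h | h
    · exfalso
      rw [h, hlev0] at hM
      omega
    · exact h
  obtain ⟨m, hm⟩ : ∃ m : ℕ, (m : ℤ) = levT oo up t k / 3 :=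
    ⟨(levT oo up t k / 3).toNat, Int.toNat_of_nonneg (by omega)⟩
  have hRm : R ≤ m := by omega
  refine ⟨m - R, ?_⟩
  have e : R + (m - R) = m := by omega
  rw [e]
  refine ⟨⟨h1, ?_⟩, k, hk1, by omega, by omega⟩
  intro i hi hil
  refine ⟨h2 i hi hil, ?_⟩
  have := hmax i (Finset.mem_range.2 (by omega))
  omega

/-- the words that reach the level 3R, R >= 1, by their highest level. -/
theorem HPR_le {x : ℝ} (hx : 0 < x) {R : ℕ} (hR : 1 ≤ R) :
    gX x (HPR R) ≤ ∑' j : ℕ, ((ENNReal.ofReal (2 * x) + 2) * AX x (R + j) +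
      ENNReal.ofReal x⁻¹ * (AX x (R + j) * gX x (SP (R + j)))) := by
  have h1 : HPR R ⊆ ⋃ j : ℕ, hwStepBF (R + j) := by
    intro t ht
    obtain ⟨j, hj⟩ := hwStepB_mem hR ht
    exact Set.mem_iUnion.2 ⟨j, hj⟩
  refine (gX_mono x h1).trans ((gX_iUnion_le x (fun j => hwStepBF (R + j))).trans ?_)
  refine ENNReal.tsum_le_tsum fun j => ?_
  refine cut_weight hx (hwStepBF (R + j)) (SP (R + j)) ?_
  intro t ht
  rcases top_cut (m := R + j) (by omega) ht.1 ht.2 with h | h | ⟨a, c, r, h2, h3, h4, -⟩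
  · exact Or.inl h
  · exact Or.inr (Or.inl h)
  · exact Or.inr (Or.inr ⟨a, c, r, h2, h3, h4⟩)


end HexObs
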