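import Pool.Agent.TST.HWDefs
import Pool.Agent.HexObs.Cut2

/-!
TST TopCut: cutting a half plane word at its last visit of its highest level.
Levels: even vertices have levels 0 mod 3, odd vertices 2 mod 3 (level_mod). A vertex at the highest level 3m+2 is
the end point (arrived from 3m by the direction up). At the last visit (number j) of level 3m the letter c of the
word does not turn up; the word up to there with the last letter !c is a bridge of the strip of height m; the rest
starts at the same vertex, seen from the half edge above it (direction -up): first letter !c (turn_down).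
Compare cut_top in HexObs/Cut2 (the same surgery), vx_split, vx_mulE with u = (-1, 0), out_rot.
-/

set_option autoImplicit false

namespace HexObs

open Complex Finset ENNReal

/-- a word of HPk (m+1) is in HPk m or reaches the level 3(m+1). -/
theorem HP_succ {m : ℕ} {t : List Bool} (ht : t ∈ HPk (m + 1)) :
    t ∈ HPk m ∨ ∃ i, 1 ≤ i ∧ i ≤ t.length ∧ 3 * ((m : ℤ) + 1) ≤ levT oo up t i := by
  by_cases h : ∃ i, 1 ≤ i ∧ i ≤ t.length ∧ 3 * ((m : ℤ) + 1) ≤ levT oo up t i
  · exact Or.inr h
  · left
    push Not at h
    refine ⟨ht.1, fun i h1 h2 => ⟨(ht.2 i h1 h2).1, ?_⟩⟩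
    have := h i h1 h2
    omega

lemma TopCut_up : up ∈ dirs := by decide

lemma TopCut_mulE (p : Pt) : mulE (-1, 0) p = -p := by
  simp only [mulE]
  ext <;> simp

/-- the vertices of a word that is read from `w` downwards. -/
lemma TopCut_vx (w : Pt) (s : List Bool) (i : ℕ) : vx w (-up) s i = w - (vx oo up s i - oo) := by
  have h := vx_mulE (-1, 0) oo w up s i
  rw [TopCut_mulE, TopCut_mulE] at h
  rw [h]
  abel

lemma TopCut_lev (w : Pt) (s : List Bool) (i : ℕ) : levT oo up s i = ip (w - vx w (-up) s i) up := by
  unfold levT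
  rw [TopCut_vx]
  congr 1
  abel

theorem top_cut {m : ℕ} (hm : 1 ≤ m) {t : List Bool} (ht : t ∈ HPk m)
    (hmax : ∃ i, 1 ≤ i ∧ i ≤ t.length ∧ 3 * (m : ℤ) ≤ levT oo up t i) :
    (∃ a c, t = a ++ [c] ∧ a ∈ out (strip oo up m) oo up up) ∨
    (∃ a c, t = a ++ [c] ∧ (a ++ [c] ∈ out (strip oo up m) oo up up ∨ a ++ [!c] ∈ out (strip oo up m) oo up up)) ∨
    (∃ a c r, t = a ++ ([c] ++ r) ∧ a ++ [!c] ∈ out (strip oo up m) oo up up ∧ [!c] ++ r ∈ SP m ∧
      (t ∈ SP m → [!c] ++ r ∈ SP (m - 1))) := by
  classical
  have h0 : up ∈ dirs := TopCut_up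
  have hinj : ∀ i k, i < k → k ≤ t.length → vx oo up t i ≠ vx oo up t k := ht.1
  have hle : ∀ i, 1 ≤ i → i ≤ t.length → ip (vx oo up t i - oo) up ≤ 3 * m + 2 :=
    fun i h1 h2 => (ht.2 i h1 h2).2
  have hpos : ∀ i, 1 ≤ i → i ≤ t.length → 0 < ip (vx oo up t i - oo) up :=
    fun i h1 h2 => (ht.2 i h1 h2).1
  have hz : ip (vx oo up t 0 - oo) up = 0 := by
    show ip (oo - oo) up = 0
    rw [sub_self]
    simp [ip]
  by_cases hex : ∃ i, 1 ≤ i ∧ i ≤ t.length ∧ ip (vx oo up t i - oo) up = 3 * m + 2
  · -- the end point is on the highest level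
    left
    have hlast : ∀ i, 1 ≤ i → i ≤ t.length → ip (vx oo up t i - oo) up = 3 * m + 2 →
        i = t.length ∧ dx up t (i - 1) = up := by
      intro i hi1 hi2 hi3
      have hmod := level_mod (v0 := oo) h0 t i
      have hodd : ¬ Even i := by
        intro he
        rw [if_pos he, hi3] at hmod
        omega
      obtain ⟨k, rfl⟩ : ∃ k, i = k + 1 := ⟨i - 1, by omega⟩
      have hek : Even k := by
        rw [Nat.even_add_one, not_not] at hodd
        exact hodd
      have hs1 := level_succ oo up t k
      have hk0 : ip (vx oo up t k - oo) up ≤ 3 * m + 2 := by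
        rcases Nat.eq_zero_or_pos k with h5 | h5
        · rw [h5, hz]
          positivity
        · exact hle k h5 (by omega)
      rcases step_even h0 t hek with ⟨hd, hip⟩ | ⟨hd, hip⟩ | ⟨hd, hip⟩
      · refine ⟨?_, by rw [Nat.add_sub_cancel]; exact hd⟩
        by_contra hne
        have hs2 := level_succ oo up t (k + 1)
        have hdn := dx_succ up t k
        rw [hd] at hdn
        have hip2 : ip (dx up t (k + 1)) up = 1 := by
          rw [hdn, ip_comm, ip_turn_self h0]
        rw [hip2, hi3] at hs2
        have := hle (k + 1 + 1) (by omega) (by omega)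
        omega
      · exfalso
        rw [hip, hi3] at hs1
        omega
      · exfalso
        rw [hip, hi3] at hs1
        omega
    obtain ⟨i, hi1, hi2, hi3⟩ := hex
    obtain ⟨hi4, hi5⟩ := hlast i hi1 hi2 hi3
    obtain ⟨k, rfl⟩ : ∃ k, i = k + 1 := ⟨i - 1, by omega⟩
    rw [Nat.add_sub_cancel] at hi5
    have hsplit := take_split (t := t) (i := k) (by omega)
    rw [List.drop_eq_nil_of_le (by omega), List.append_nil] at hsplit
    obtain ⟨a, ha⟩ : ∃ a, a = t.take k := ⟨_, rfl⟩
    rw [← ha] at hsplit
    have hal : a.length = k := by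
      rw [ha, List.length_take]
      omega
    have hva : ∀ l, l ≤ k + 1 → vx oo up a l = vx oo up t l := by
      intro l hl
      rw [hsplit, vx_append (by omega)]
    have hda : ∀ l, l ≤ k → dx up a l = dx up t l := by
      intro l hl
      rw [hsplit, dx_append (by omega)]
    refine ⟨a, tf t k, hsplit, ⟨⟨?_, ?_⟩, ?_, ?_⟩⟩
    · intro l hl1 hl2
      rw [hva l (by omega)]
      refine ⟨vx_hex oo up t l, hpos l hl1 (by omega), ?_⟩
      refine lt_of_le_of_ne (hle l hl1 (by omega)) fun h => ?_
      have := (hlast l hl1 (by omega) h).1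
      omega
    · intro l p hlp hp
      rw [hva l (by omega), hva p (by omega)]
      exact hinj l p hlp (by omega)
    · unfold tip
      rw [hal, hva _ le_rfl]
      rintro ⟨_, _, h5⟩
      rw [hi3] at h5
      exact lt_irrefl _ h5
    · rw [hal, hda k le_rfl]
      exact hi5
  · right
    push Not at hex
    have hle' : ∀ i, 1 ≤ i → i ≤ t.length → ip (vx oo up t i - oo) up < 3 * m + 2 :=
      fun i h1 h2 => lt_of_le_of_ne (hle i h1 h2) (hex i h1 h2)
    have hle3 : ∀ i, 1 ≤ i → i ≤ t.length → ip (vx oo up t i - oo) up ≤ 3 * m := by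
      intro i h1 h2
      have h3 := hle' i h1 h2
      have hmod := level_mod (v0 := oo) h0 t i
      by_cases he : Even i
      · rw [if_pos he] at hmod
        omega
      · rw [if_neg he] at hmod
        omega
    -- the last visit of the level 3m
    obtain ⟨j, hj1, hj2, hj3, hj4⟩ : ∃ j, 1 ≤ j ∧ j ≤ t.length ∧ ip (vx oo up t j - oo) up = 3 * m ∧
        ∀ k, j < k → k ≤ t.length → ip (vx oo up t k - oo) up < 3 * m := by
      obtain ⟨i, hi1, hi2, hi3⟩ := hmax
      have hi3' : 3 * (m : ℤ) ≤ ip (vx oo up t i - oo) up := hi3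
      set Q : ℕ → Prop := fun i => 1 ≤ i ∧ 3 * (m : ℤ) ≤ ip (vx oo up t i - oo) up with hQ
      have h1 : Q (Nat.findGreatest Q t.length) := Nat.findGreatest_spec hi2 ⟨hi1, hi3'⟩
      refine ⟨Nat.findGreatest Q t.length, h1.1, Nat.findGreatest_le _, ?_, ?_⟩
      · exact le_antisymm (hle3 _ h1.1 (Nat.findGreatest_le _)) h1.2
      · intro k hk1 hk2
        by_contra hcon
        push Not at hcon
        exact Nat.findGreatest_is_greatest hk1 hk2 ⟨by omega, hcon⟩
    have hev : Even j := by
      by_contra he
      have hmod := level_mod (v0 := oo) h0 t j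
      rw [if_neg he, hj3] at hmod
      omega
    obtain ⟨p, rfl⟩ : ∃ p, j = p + 1 := ⟨j - 1, by omega⟩
    have hodd : ¬ Even p := by
      intro he
      rw [Nat.even_add_one] at hev
      exact hev he
    have hp1 : 1 ≤ p := by
      by_contra hcon
      have : p = 0 := by omega
      rw [this] at hodd
      exact hodd (by decide)
    have harr : ∃ c : Bool, dx up t p = turn c up := by
      rcases step_odd h0 t hodd with ⟨hd, hip⟩ | ⟨hd, hip⟩ | ⟨hd, hip⟩
      · exfalso
        have hs := level_succ oo up t p
        rw [hip, hj3] at hs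
        have := hle' p hp1 (by omega)
        omega
      · exact ⟨true, hd⟩
      · exact ⟨false, hd⟩
    obtain ⟨c, hc⟩ := harr
    have hsplit := take_split (t := t) (i := p) (by omega)
    obtain ⟨a, ha⟩ : ∃ a, a = t.take p := ⟨_, rfl⟩
    obtain ⟨r, hr⟩ : ∃ r, r = t.drop (p + 1) := ⟨_, rfl⟩
    rw [← ha, ← hr] at hsplit
    have hal : a.length = p := by
      rw [ha, List.length_take]
      omega
    have hrl : r.length + (p + 1) = t.length := by
      rw [hr, List.length_drop]
      omega
    have hva : ∀ k, k ≤ p + 1 → vx oo up a k = vx oo up t k := by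
      intro k hk
      conv_rhs => rw [hsplit]
      rw [vx_append (by omega)]
    have hda : ∀ k, k ≤ p → dx up a k = dx up t k := by
      intro k hk
      conv_rhs => rw [hsplit]
      rw [dx_append (by omega)]
    have htipa : tip oo up a = vx oo up t (p + 1) := by
      unfold tip
      rw [hal, hva _ le_rfl]
    have hbr : a ++ [!c] ∈ out (strip oo up m) oo up up := by
      refine ⟨saw_append_one.2 ⟨⟨?_, ?_⟩, ?_, ?_⟩, ?_, ?_⟩
      · intro k hk1 hk2
        rw [hva k (by omega)]
        exact ⟨vx_hex oo up t k, hpos k hk1 (by omega), hle' k hk1 (by omega)⟩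
      · intro k l hkl hl
        rw [hva k (by omega), hva l (by omega)]
        exact hinj k l hkl (by omega)
      · rw [htipa]
        exact ⟨vx_hex oo up t _, hpos _ (by omega) (by omega), hle' _ (by omega) (by omega)⟩
      · intro k hk
        rw [htipa, hva k (by omega)]
        exact hinj k (p + 1) (by omega) (by omega)
      · rw [tip_append_one, hal, hda p le_rfl, hc, turn_turn, htipa]
        rintro ⟨_, _, h5⟩
        have e : vx oo up t (p + 1) + up - oo = (vx oo up t (p + 1) - oo) + up := by abel
        rw [e, ip_add_left, hj3, ip_self_dir h0] at h5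
        linarith
      · rw [dx_append_one, hal, hda p le_rfl, hc, turn_turn]
    have hdx1 := dx_succ up t p
    rw [hc] at hdx1
    by_cases hb : tf t p = c
    · -- the rest
      right
      rw [hb] at hsplit
      set w := vx oo up t (p + 1) + up with hw
      have hlevw : ip (w - oo) up = 3 * m + 2 := by
        have e : w - oo = (vx oo up t (p + 1) - oo) + up := by
          rw [hw]
          abel
        rw [e, ip_add_left, hj3, ip_self_dir h0]
      have k1 := fun k => (vx_split oo up a c r k)
      have k2 := fun k => (vx_split w (-up) [] (!c) r k)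
      simp only [List.nil_append, List.length_nil, zero_add] at k2
      have e1 : tip w (-up) [] = tip oo up a := by
        show w + -up = _
        rw [htipa, hw]
        abel
      have e2 : turn (!c) (dx (-up) [] 0) = turn c (dx up a a.length) := by
        show turn (!c) (-up) = _
        rw [hal, hda p le_rfl, hc, turn_down up h0]
      rw [← hsplit, hal] at k1
      rw [hal] at e2
      have key : ∀ k, vx w (-up) ([!c] ++ r) (1 + k) = vx oo up t (p + 1 + k) := by
        intro k
        rw [(k1 k).1, (k2 k).1, e1, e2]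
      have hl2 : ([!c] ++ r).length = 1 + r.length := by
        rw [List.length_append]
        rfl
      have hw0 : vx w (-up) ([!c] ++ r) 0 = w := rfl
      have klev : ∀ k, levT oo up ([!c] ++ r) (1 + k) = 3 * m + 2 - ip (vx oo up t (p + 1 + k) - oo) up := by
        intro k
        rw [TopCut_lev w, key, ← hlevw, ← ip_sub_left]
        congr 1
        abel
      have kinj : Inj oo up ([!c] ++ r) := by
        have hinj2 : ∀ i k, i < k → k ≤ ([!c] ++ r).length →
            vx w (-up) ([!c] ++ r) i ≠ vx w (-up) ([!c] ++ r) k := by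
          intro k l hkl hl
          obtain ⟨l', rfl⟩ : ∃ l', l = 1 + l' := ⟨l - 1, by omega⟩
          rw [key]
          rcases Nat.eq_zero_or_pos k with hk | hk
          · rw [hk, hw0]
            intro heq
            have := hle3 (p + 1 + l') (by omega) (by omega)
            rw [← heq, hlevw] at this
            linarith
          · obtain ⟨k', rfl⟩ : ∃ k', k = 1 + k' := ⟨k - 1, by omega⟩
            rw [key]
            exact hinj _ _ (by omega) (by omega)
        intro i k hik hk heq
        apply hinj2 i k hik hk
        rw [TopCut_vx, TopCut_vx, heq]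
      have kpos : ∀ k, k ≤ r.length → levT oo up ([!c] ++ r) (1 + k) ≤ 3 * m ∧ 0 < levT oo up ([!c] ++ r) (1 + k) := by
        intro k hk
        have h1 := hpos (p + 1 + k) (by omega) (by omega)
        have h2 := hle3 (p + 1 + k) (by omega) (by omega)
        have hmod := level_mod (v0 := oo) h0 t (p + 1 + k)
        rw [klev]
        refine ⟨?_, by linarith⟩
        by_cases he : Even (p + 1 + k)
        · rw [if_pos he] at hmod
          omega
        · rw [if_neg he] at hmod
          omega
      have kge : ∀ i, 2 ≤ i → i ≤ ([!c] ++ r).length → 3 ≤ levT oo up ([!c] ++ r) i := by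
        intro i hi1 hi2
        obtain ⟨k, rfl⟩ : ∃ k, i = 1 + k := ⟨i - 1, by omega⟩
        rw [klev]
        have h1 := hj4 (p + 1 + k) (by omega) (by omega)
        omega
      refine ⟨a, c, r, hsplit, hbr, ⟨⟨kinj, ?_⟩, kge⟩, ?_⟩
      · intro i hi1 hi2
        obtain ⟨k, rfl⟩ : ∃ k, i = 1 + k := ⟨i - 1, by omega⟩
        have := kpos k (by omega)
        exact ⟨this.2, by linarith [this.1]⟩
      · intro hsp
        refine ⟨⟨kinj, ?_⟩, kge⟩
        intro i hi1 hi2
        obtain ⟨k, rfl⟩ : ∃ k, i = 1 + k := ⟨i - 1, by omega⟩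
        refine ⟨(kpos k (by omega)).2, ?_⟩
        rw [klev]
        have h1 : 3 ≤ ip (vx oo up t (p + 1 + k) - oo) up := hsp.2 (p + 1 + k) (by omega) (by omega)
        have h2 : ((m - 1 : ℕ) : ℤ) = (m : ℤ) - 1 := by
          push_cast [hm]
          ring
        rw [h2]
        linarith
    · -- the last letter turns up: the word ends
      left
      have hb' : tf t p = !c := by
        cases h5 : tf t p <;> cases h6 : c <;> rw [h5, h6] at hb <;> simp at hb ⊢
      rw [hb', turn_turn] at hdx1
      have hs := level_succ oo up t (p + 1)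
      rw [hdx1, ip_self_dir h0, hj3] at hs
      have hend : t.length = p + 1 := by
        by_contra hne
        have := hle3 (p + 1 + 1) (by omega) (by omega)
        omega
      have hr0 : r = [] := by
        apply List.eq_nil_of_length_eq_zero
        omega
      rw [hb', hr0, List.append_nil] at hsplit
      exact ⟨a, !c, hsplit, Or.inl hbr⟩

end HexObs
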