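import Pool.Agent.HexObs.Lower
import Pool.Agent.HexObs.Sym

/-!
TST: weights of words with a free weight `x` per vertex.
-/

set_option autoImplicit false

namespace HexObs

open Complex Finset ENNReal

/-- the weight of a word with `x` per vertex. -/
noncomputable def wX (x : ℝ) (t : List Bool) : ℝ≥0∞ := ENNReal.ofReal (x ^ t.length)

/-- the generating function of a set of words. -/
noncomputable def gX (x : ℝ) (P : Set (List Bool)) : ℝ≥0∞ := ∑' t : P, wX x t

lemma wX_xc (t : List Bool) : wX xc t = wE t := rfl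

lemma gX_xc (P : Set (List Bool)) : gX xc P = gf P := rfl

lemma wX_nil (x : ℝ) : wX x [] = 1 := by simp [wX]

lemma wX_append {x : ℝ} (hx : 0 ≤ x) (a b : List Bool) : wX x (a ++ b) = wX x a * wX x b := by
  unfold wX
  rw [List.length_append, pow_add, ENNReal.ofReal_mul (pow_nonneg hx _)]

lemma wX_single (x : ℝ) (b : Bool) : wX x [b] = ENNReal.ofReal x := by simp [wX]

lemma wX_pos {x : ℝ} (hx : 0 < x) (t : List Bool) : 0 < wX x t := by
  unfold wX
  rw [ENNReal.ofReal_pos]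
  exact pow_pos hx _

lemma wX_ne_top (x : ℝ) (t : List Bool) : wX x t ≠ ∞ := ENNReal.ofReal_ne_top

lemma wX_mono {x y : ℝ} (hx : 0 ≤ x) (hxy : x ≤ y) (t : List Bool) : wX x t ≤ wX y t :=
  ENNReal.ofReal_le_ofReal (pow_le_pow_left₀ hx hxy _)

lemma wX_congr (x : ℝ) {s t : List Bool} (h : s.length = t.length) : wX x s = wX x t := by
  unfold wX
  rw [h]

lemma wX_map_not (x : ℝ) (t : List Bool) : wX x (t.map not) = wX x t := wX_congr x (List.length_map _)

lemma wX_rev (x : ℝ) (t : List Bool) : wX x (rev t) = wX x t := wX_congr x (rev_length t)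

lemma gX_mono (x : ℝ) {P Q : Set (List Bool)} (h : P ⊆ Q) : gX x P ≤ gX x Q :=
  ENNReal.tsum_mono_subtype (wX x) h

lemma gX_mono_weight {x y : ℝ} (hx : 0 ≤ x) (hxy : x ≤ y) (P : Set (List Bool)) : gX x P ≤ gX y P :=
  ENNReal.tsum_le_tsum fun t => wX_mono hx hxy t

lemma gX_empty (x : ℝ) : gX x ∅ = 0 := by
  unfold gX
  rw [ENNReal.tsum_eq_zero]
  rintro ⟨t, ht⟩
  exact absurd ht (Set.notMem_empty t)

lemma gX_union (x : ℝ) {P Q : Set (List Bool)} (h : Disjoint P Q) : gX x (P ∪ Q) = gX x P + gX x Q := by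
  unfold gX
  exact ENNReal.summable.tsum_union_disjoint h ENNReal.summable

lemma gX_union_le (x : ℝ) (P Q : Set (List Bool)) : gX x (P ∪ Q) ≤ gX x P + gX x Q :=
  ENNReal.tsum_union_le (wX x) P Q

lemma gX_singleton (x : ℝ) (t : List Bool) : gX x {t} = wX x t := by
  unfold gX
  exact tsum_singleton t (wX x)

/-- a countable union. -/
lemma gX_iUnion_le {ι : Type} (x : ℝ) (F : ι → Set (List Bool)) : gX x (⋃ i, F i) ≤ ∑' i, gX x (F i) :=
  ENNReal.tsum_iUnion_le_tsum (wX x) F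

/-- a disjoint family inside `P`. -/
lemma tsum_gX_le {ι : Type} (x : ℝ) {P : Set (List Bool)} (F : ι → Set (List Bool)) (h : ∀ i, F i ⊆ P)
    (hd : ∀ i j, i ≠ j → Disjoint (F i) (F j)) : ∑' i, gX x (F i) ≤ gX x P := by
  unfold gX
  rw [← ENNReal.tsum_sigma (f := fun (i : ι) (t : F i) => wX x t)]
  apply ENNReal.tsum_comp_le_tsum_of_injective (f := fun p : (Σ i, F i) => (⟨p.2.1, h p.1 p.2.2⟩ : P)) _
    (fun t : P => wX x t)
  rintro ⟨i, s, hs⟩ ⟨j, t, ht⟩ hst
  have h1 : s = t := congrArg Subtype.val hst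
  subst h1
  by_cases hij : i = j
  · subst hij
    rfl
  · exact absurd ht (Set.disjoint_left.1 (hd i j hij) hs)

/-- weights can be compared along an injective map. -/
lemma gX_le_of_inj {x y : ℝ} {P Q : Set (List Bool)} (φ : List Bool → List Bool) (h : ∀ t ∈ P, φ t ∈ Q)
    (hi : Set.InjOn φ P) (c : ℝ≥0∞) (hw : ∀ t ∈ P, wX x t ≤ c * wX y (φ t)) : gX x P ≤ c * gX y Q := by
  unfold gX
  rw [← ENNReal.tsum_mul_left]
  let ψ : P → Q := fun t => ⟨φ t, h t t.2⟩
  have hψ : Function.Injective ψ := by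
    intro a b hab
    have := congrArg Subtype.val hab
    exact Subtype.ext (hi a.2 b.2 this)
  calc ∑' t : P, wX x t ≤ ∑' t : P, c * wX y (ψ t) := ENNReal.tsum_le_tsum (fun t => hw t t.2)
    _ ≤ ∑' s : Q, c * wX y s := ENNReal.tsum_comp_le_tsum_of_injective hψ (fun s => c * wX y s)

/-- the general cutting lemma: words of P are mapped injectively to pairs. -/
lemma gX_le_pair {x : ℝ} {P Q R : Set (List Bool)} (c : ℝ≥0∞) (f g : List Bool → List Bool)
    (hf : ∀ t ∈ P, f t ∈ Q) (hg : ∀ t ∈ P, g t ∈ R)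
    (hi : ∀ s ∈ P, ∀ t ∈ P, f s = f t → g s = g t → s = t)
    (hw : ∀ t ∈ P, wX x t ≤ c * (wX x (f t) * wX x (g t))) : gX x P ≤ c * (gX x Q * gX x R) := by
  unfold gX
  rw [← ENNReal.tsum_mul_right]
  simp_rw [← ENNReal.tsum_mul_left]
  rw [← ENNReal.tsum_prod (f := fun (a : Q) (b : R) => c * (wX x a * wX x b))]
  let ψ : P → Q × R := fun t => (⟨f t, hf t t.2⟩, ⟨g t, hg t t.2⟩)
  have hψ : Function.Injective ψ := by
    intro a b hab
    have h1 : f a = f b := congrArg (fun p => (p.1 : List Bool)) hab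
    have h2 : g a = g b := congrArg (fun p => (p.2 : List Bool)) hab
    exact Subtype.ext (hi a a.2 b b.2 h1 h2)
  calc ∑' t : P, wX x t ≤ ∑' t : P, c * (wX x (ψ t).1 * wX x (ψ t).2) :=
        ENNReal.tsum_le_tsum (fun t => hw t t.2)
    _ ≤ ∑' p : Q × R, c * (wX x p.1 * wX x p.2) :=
        ENNReal.tsum_comp_le_tsum_of_injective hψ (fun p : Q × R => c * (wX x p.1 * wX x p.2))

/-- every word of P splits into a word of Q and a word of R. -/
lemma gX_le_mul {x : ℝ} (hx : 0 ≤ x) {P Q R : Set (List Bool)} (h : ∀ t ∈ P, ∃ a ∈ Q, ∃ b ∈ R, t = a ++ b) :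
    gX x P ≤ gX x Q * gX x R := by
  classical
  choose! f hf g hg hfg using h
  have := gX_le_pair (x := x) (P := P) (Q := Q) (R := R) 1 f g hf hg (by
    intro s hs t ht h1 h2
    rw [hfg s hs, hfg t ht, h1, h2]) (by
    intro t ht
    rw [one_mul, ← wX_append hx, ← hfg t ht])
  rwa [one_mul] at this

/-- concatenation, when the words of Q and R can be recovered. -/
lemma mul_le_gX {x : ℝ} (hx : 0 ≤ x) {P Q R : Set (List Bool)} (h : ∀ a ∈ Q, ∀ b ∈ R, a ++ b ∈ P)
    (hu : ∀ a ∈ Q, ∀ b ∈ R, ∀ a' ∈ Q, ∀ b' ∈ R, a ++ b = a' ++ b' → a = a') :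
    gX x Q * gX x R ≤ gX x P := by
  unfold gX
  rw [← ENNReal.tsum_mul_right]
  simp_rw [← ENNReal.tsum_mul_left]
  rw [← ENNReal.tsum_prod]
  let ψ : Q × R → P := fun p => ⟨p.1 ++ p.2, h _ p.1.2 _ p.2.2⟩
  have hψ : Function.Injective ψ := by
    rintro ⟨a, b⟩ ⟨a', b'⟩ hab
    have h1 : (a : List Bool) ++ b = a' ++ b' := congrArg Subtype.val hab
    have h2 := hu a a.2 b b.2 a' a'.2 b' b'.2 h1
    rw [h2] at h1
    have h3 := List.append_cancel_left h1
    exact Prod.ext (Subtype.ext h2) (Subtype.ext h3)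
  calc ∑' p : Q × R, wX x p.1 * wX x p.2 = ∑' p : Q × R, wX x (ψ p) := by
        apply tsum_congr
        intro p
        rw [← wX_append hx]
    _ ≤ ∑' t : P, wX x t := ENNReal.tsum_comp_le_tsum_of_injective hψ (fun t : P => wX x t)

lemma gX_finset {x : ℝ} (hx : 0 ≤ x) (s : Finset (List Bool)) :
    gX x (s : Set (List Bool)) = ENNReal.ofReal (∑ t ∈ s, x ^ t.length) := by
  unfold gX
  rw [ENNReal.ofReal_sum_of_nonneg (fun t _ => pow_nonneg hx _)]
  exact Finset.tsum_subtype s (wX x)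

/-- the words of a fixed length. -/
lemma gX_length {x : ℝ} (n : ℕ) (P : Set (List Bool)) (hP : ∀ t ∈ P, t.length = n) :
    gX x P = ENNReal.ofReal (x ^ n) * (P.ncard : ℝ≥0∞) := by
  have hfin : P.Finite := (List.finite_length_le Bool n).subset (fun t ht => (hP t ht).le)
  have h2 : gX x P = gX x ((hfin.toFinset : Finset (List Bool)) : Set (List Bool)) := by
    rw [Set.Finite.coe_toFinset]
  have h4 : gX x ((hfin.toFinset : Finset (List Bool)) : Set (List Bool)) = ∑ t ∈ hfin.toFinset, wX x t :=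
    Finset.tsum_subtype hfin.toFinset (wX x)
  rw [h2, h4]
  have h3 : ∀ t ∈ hfin.toFinset, wX x t = ENNReal.ofReal (x ^ n) := by
    intro t ht
    rw [Set.Finite.mem_toFinset] at ht
    unfold wX
    rw [hP t ht]
  rw [Finset.sum_congr rfl h3, Finset.sum_const, nsmul_eq_mul, mul_comm, Set.ncard_eq_toFinset_card P hfin]

/-- the weight of the bridges of the strip of height `T` (`T = 0`: the empty word). -/
noncomputable def AX (x : ℝ) (T : ℕ) : ℝ≥0∞ := gX x (out (strip (0, 0) (0, 1) T) (0, 0) (0, 1) (0, 1))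

lemma AX_xc (T : ℕ) : AX xc T = BT T := rfl

lemma AX_mono {x y : ℝ} (hx : 0 ≤ x) (hxy : x ≤ y) (T : ℕ) : AX x T ≤ AX y T := gX_mono_weight hx hxy _

lemma AX_le_one {x : ℝ} (hx : 0 ≤ x) (hxc : x ≤ xc) {T : ℕ} (hT : 1 ≤ T) : AX x T ≤ 1 :=
  (AX_mono hx hxc T).trans (by rw [AX_xc]; exact BT_le_one hT)

/-- generating functions do not depend on the position and the direction. -/
theorem gX_rot (x : ℝ) {u : Pt} (hu : nrm u = 1) (v0 v0' d0 e : Pt) {Ω Ω' : Set Pt}
    (hΩ : ∀ v, v ∈ Ω ↔ v0' + mulE u (v - v0) ∈ Ω') :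
    gX x (out Ω v0 d0 e) = gX x (out Ω' v0' (mulE u d0) (mulE u e)) := by
  rw [out_rot hu v0 v0' d0 e hΩ]

theorem AX_eq (x : ℝ) {d0 : Pt} (h0 : d0 ∈ dirs) (v0 : Pt) (T : ℕ) :
    gX x (out (strip v0 d0 T) v0 d0 d0) = AX x T := by
  unfold AX
  rw [(strip_rot h0 (show ((0, 1) : Pt) ∈ dirs by decide) v0 (0, 0) T).1]

end HexObs
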